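import Pool.Agent.TH204.WR.W3

/-!
Arbitrary weights: the second moment over `k` of weighted sums `∑ w n f(G n + k)` is bounded, by
the inequality of Cauchy and Schwarz, by the squares of the autocorrelations of `f` at the
differences of `G`; these squares are sums of autocorrelations of the functions
`v ↦ f v f(v + l)`, so that the inverse theorem for Weyl sums applies to them.
-/

set_option autoImplicit false

namespace Pool.Agent.Q156.AW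

open Finset
open Pool.Agent.Helper112 (ee ls_ee_add ls_conj_ee ls_ee_zero ls_norm_ee ls_ee_int ls_ee_nat_mul)
open Pool.Agent.TH892.SW (rc rc_cor rc_zero rc_big div_sq)
open Pool.Agent.TH204.WR
open Pool.Agent.H373R2.NB (Ph IW IW_all)

/-- the weighted sum of `f` at the values `G n + k` in `[1,Y]` -/
noncomputable def TW (w : ℕ → ℝ) (G : ℕ → ℤ) (N0 M Y : ℕ) (f : ℤ → ℝ) (k : ℤ) : ℝ :=
  ∑ n ∈ Icc N0 M, w n * cutf Y f (G n + k)

/-- the product of `f` and its shift -/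
noncomputable def FL (Y : ℕ) (f : ℤ → ℝ) (l : ℤ) (v : ℤ) : ℝ := cutf Y f v * cutf Y f (v + l)

lemma cut_FL (Y : ℕ) (f : ℤ → ℝ) (l v : ℤ) : cutf Y (FL Y f l) v = FL Y f l v := by
  by_cases h : v ∈ Icc (1 : ℤ) Y
  · rw [cutf_in h]
  · rw [cutf_out h]
    unfold FL
    rw [cutf_out h, zero_mul]

/-- the square of an autocorrelation -/
lemma rc_sq (Y : ℕ) (f : ℤ → ℝ) (h : ℤ) :
    ∑ l ∈ Icc (-((Y : ℤ) - 1)) ((Y : ℤ) - 1), rc Y (FL Y f l) h = rc Y f h ^ 2 := by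
  set g : ℤ → ℝ := fun v => cutf Y f v * cutf Y f (v + h) with hg
  have e1 : ∀ l : ℤ, rc Y (FL Y f l) h = ∑ v ∈ Icc (1 : ℤ) Y, g v * g (v + l) := by
    intro l
    rw [rc_eq]
    refine sum_congr rfl fun v _ => ?_
    rw [cut_FL, cut_FL, hg]
    unfold FL
    simp only
    rw [show v + h + l = v + l + h by ring]
    ring
  have e2 : ∀ v ∈ Icc (1 : ℤ) Y, ∑ l ∈ Icc (-((Y : ℤ) - 1)) ((Y : ℤ) - 1), g (v + l) =
      ∑ u ∈ Icc (1 : ℤ) Y, g u := by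
    intro v hv
    rw [mem_Icc] at hv
    have h1 : ∑ l ∈ Icc (-((Y : ℤ) - 1)) ((Y : ℤ) - 1), g (v + l) =
        ∑ u ∈ Icc (v - ((Y : ℤ) - 1)) (v + ((Y : ℤ) - 1)), g u := sum_shift g v _
    rw [h1]
    symm
    apply sum_subset
    · intro u hu
      rw [mem_Icc] at hu ⊢
      omega
    · intro u _ hu
      rw [hg]
      simp only
      rw [cutf_out hu, zero_mul]
  simp_rw [e1]
  rw [sum_comm]
  have e3 : rc Y f h = ∑ v ∈ Icc (1 : ℤ) Y, g v := rc_eq Y f h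
  rw [e3, sq, sum_mul]
  refine sum_congr rfl fun v hv => ?_
  rw [← mul_sum, e2 v hv]

/-- autocorrelations are at most the value at `0` -/
lemma rc_le (Y : ℕ) (f : ℤ → ℝ) (h : ℤ) : |rc Y f h| ≤ rc Y f 0 := by
  have h0 : rc Y f 0 = ∑ v ∈ Icc (1 : ℤ) Y, cutf Y f v ^ 2 := by
    rw [rc_zero]
    refine sum_congr rfl fun v hv => ?_
    rw [cutf_in hv]
  have h1 : ∑ v ∈ Icc (1 : ℤ) Y, cutf Y f (v + h) ^ 2 ≤ ∑ v ∈ Icc (1 : ℤ) Y, cutf Y f v ^ 2 := by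
    have e1 : ∑ v ∈ Icc (1 : ℤ) Y, cutf Y f (v + h) ^ 2 =
        ∑ v ∈ Icc (1 + h) (Y + h), cutf Y f v ^ 2 := by
      refine sum_nbij' (fun v => v + h) (fun v => v - h) ?_ ?_ ?_ ?_ ?_
      · intro v hv; rw [mem_Icc] at hv ⊢; omega
      · intro v hv; rw [mem_Icc] at hv ⊢; omega
      · intro v _; ring
      · intro v _; ring
      · intro v _; rfl
    rw [e1]
    calc ∑ v ∈ Icc (1 + h) (Y + h), cutf Y f v ^ 2
        = ∑ v ∈ (Icc (1 + h) (Y + h)).filter (fun v => v ∈ Icc (1 : ℤ) Y), cutf Y f v ^ 2 := by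
          symm
          apply sum_subset (filter_subset _ _)
          intro v hv hv2
          rw [mem_filter, not_and] at hv2
          rw [cutf_out (hv2 hv)]
          ring
      _ ≤ ∑ v ∈ Icc (1 : ℤ) Y, cutf Y f v ^ 2 := by
          apply sum_le_sum_of_subset_of_nonneg
          · intro v hv; exact (mem_filter.1 hv).2
          · intro _ _ _; positivity
  rw [rc_eq, h0]
  refine (abs_sum_le_sum_abs _ _).trans ?_
  have h2 : ∑ v ∈ Icc (1 : ℤ) Y, |cutf Y f v * cutf Y f (v + h)| ≤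
      ∑ v ∈ Icc (1 : ℤ) Y, (cutf Y f v ^ 2 + cutf Y f (v + h) ^ 2) / 2 := by
    refine sum_le_sum fun v _ => ?_
    rw [abs_mul]
    nlinarith [sq_nonneg (|cutf Y f v| - |cutf Y f (v + h)|), sq_abs (cutf Y f v), sq_abs (cutf Y f (v + h))]
  refine h2.trans ?_
  rw [← sum_div, sum_add_distrib]
  linarith

/-- one difference -/
theorem one_diff (k : ℕ) (hk : 1 ≤ k) : ∃ c m : ℕ, 1 ≤ c ∧
    ∀ (A : ℤ) (N0 M Y J δ : ℕ) (G : ℕ → ℤ) (f : ℤ → ℝ) (u : ℝ),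
    A ≠ 0 → 1 ≤ M → 1 ≤ J → 1 ≤ u → 8 * (J : ℝ) * (c * u ^ m) ≤ (M : ℝ) ^ k → 1 ≤ δ → δ ≤ M →
    (∀ (δ : ℕ) (γ : ℝ), Ph k (γ * ((A : ℝ) * δ)) (fun n => γ * ((G (N0 + n + δ) - G (N0 + n) : ℤ) : ℝ))) →
    ∑ n ∈ Icc N0 (M - δ), rc Y f (G (n + δ) - G n) ≤
      M / u * rc Y f 0 + M * ∑ q ∈ Icc 1 ⌊c * u ^ m⌋₊, 4 / (J : ℝ) ^ 2 *
        ∑ j ∈ range J, ∑ j' ∈ range J, rc Y f ((((q * A.natAbs) * δ : ℕ) : ℤ) * ((j' : ℤ) - j)) := by
  obtain ⟨c, m, hc, hW⟩ := weyl_one k hk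
  refine ⟨c, m, hc, fun A N0 M Y J δ G f u hA hM hJ hu hJM hδ1 hδM hPh => ?_⟩
  have hM0 : (0 : ℝ) < M := by exact_mod_cast hM
  have hu0 : 0 < u := by linarith
  have hJ0 : (0 : ℝ) < J := by exact_mod_cast hJ
  have hc1 : (1 : ℝ) ≤ c := by exact_mod_cast hc
  set P := ⌊(c : ℝ) * u ^ m⌋₊ with hP
  -- the modulus
  obtain ⟨R, hR0, hRY, hR1, hR2⟩ : ∃ R : ℕ, 0 < R ∧ Y ≤ R ∧
      (∀ n ∈ Icc N0 (M - δ), |G (n + δ) - G n| + Y ≤ (R : ℤ)) ∧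
      (∀ q ∈ Icc 1 P, |(((q * A.natAbs) * δ : ℕ) : ℤ)| * J + Y ≤ R) := by
    refine ⟨1 + Y + (∑ n ∈ Icc N0 (M - δ), (G (n + δ) - G n).natAbs) + (P * A.natAbs) * δ * J, by omega, by omega, ?_, ?_⟩
    · intro n hn
      have h3 : (G (n + δ) - G n).natAbs ≤ ∑ n ∈ Icc N0 (M - δ), (G (n + δ) - G n).natAbs :=
        single_le_sum (f := fun n => (G (n + δ) - G n).natAbs) (fun i _ => Nat.zero_le _) hn
      rw [← Int.natCast_natAbs]
      have h6 : (G (n + δ) - G n).natAbs + Y ≤ 1 + Y + (∑ n ∈ Icc N0 (M - δ), (G (n + δ) - G n).natAbs) + (P * A.natAbs) * δ * J := by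
        have : 0 ≤ (P * A.natAbs) * δ * J := Nat.zero_le _
        omega
      exact_mod_cast h6
    · intro q hq
      rw [mem_Icc] at hq
      have h3 : ((q * A.natAbs) * δ) * J ≤ (P * A.natAbs) * δ * J :=
        Nat.mul_le_mul_right _ (Nat.mul_le_mul_right _ (Nat.mul_le_mul_right _ hq.2))
      rw [abs_of_nonneg (Int.natCast_nonneg _)]
      have h6 : ((q * A.natAbs) * δ) * J + Y ≤ 1 + Y + (∑ n ∈ Icc N0 (M - δ), (G (n + δ) - G n).natAbs) + (P * A.natAbs) * δ * J := by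
        omega
      exact_mod_cast h6
  have hRr : (0 : ℝ) < R := by exact_mod_cast hR0
  set F : ℕ → ℝ := fun q => ∑ j ∈ range J, ∑ j' ∈ range J, rc Y f ((((q * A.natAbs) * δ : ℕ) : ℤ) * ((j' : ℤ) - j)) with hF
  have hpars : ∑ b ∈ range R, ‖EE Y f ((b : ℝ) / R)‖ ^ 2 = R * rc Y f 0 := by
    have h3 := sq_rc Y R 1 hR0 f 0 (by
      rw [abs_zero, zero_mul, zero_add]
      exact_mod_cast hRY)
    simpa [ls_ee_zero] using h3
  have h3 := sum_rc_le Y R hR0 f (Icc N0 (M - δ)) (fun n => G (n + δ) - G n) hR1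
  have h4 : ∀ b ∈ range R, ‖∑ n ∈ Icc N0 (M - δ), ee (-(((G (n + δ) - G n : ℤ) : ℝ) * ((b : ℝ) / R)))‖ ≤
      M / u + M * ∑ q ∈ Icc 1 P, 4 / (J : ℝ) ^ 2 *
        ‖∑ j ∈ range J, ee (j * (((((q * A.natAbs) * δ : ℕ) : ℤ) : ℝ) * ((b : ℝ) / R)))‖ ^ 2 := by
    intro b _
    have e1 : Icc N0 (M - δ) = Ico N0 (M - δ + 1) := by
      ext n; rw [mem_Icc, mem_Ico]; omega
    have e2 : ∑ n ∈ Icc N0 (M - δ), ee (-(((G (n + δ) - G n : ℤ) : ℝ) * ((b : ℝ) / R))) =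
        ∑ i ∈ range (M - δ + 1 - N0), ee ((-((b : ℝ) / R)) * ((G (N0 + i + δ) - G (N0 + i) : ℤ) : ℝ)) := by
      rw [e1, sum_Ico_eq_sum_range]
      refine sum_congr rfl fun i _ => ?_
      congr 1
      ring
    rw [e2]
    have h5 := hW M (M - δ + 1 - N0) J u _ _ hM (by omega) hJ hu (hPh δ (-((b : ℝ) / R))) hJM
    refine h5.trans (le_of_eq ?_)
    congr 2
    refine sum_congr rfl fun q _ => ?_
    have e4 : ‖∑ j ∈ range J, ee (j * (q * (-((b : ℝ) / R) * ((A : ℝ) * δ))))‖ =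
        ‖∑ j ∈ range J, ee (j * (((((q * A.natAbs) * δ : ℕ) : ℤ) : ℝ) * ((b : ℝ) / R)))‖ := by
      rcases lt_or_gt_of_ne hA with hneg | hpos
      · have e3 : (A : ℝ) = -((A.natAbs : ℕ) : ℝ) := by
          rw [Nat.cast_natAbs, abs_of_neg hneg]
          push_cast
          ring
        congr 1
        refine sum_congr rfl fun j _ => ?_
        congr 1
        rw [Int.cast_natCast, Nat.cast_mul, Nat.cast_mul, e3]
        ring
      · have e3 : (A : ℝ) = ((A.natAbs : ℕ) : ℝ) := by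
          rw [Nat.cast_natAbs, abs_of_pos hpos]
        rw [← geom_neg]
        congr 1
        refine sum_congr rfl fun j _ => ?_
        congr 1
        rw [Int.cast_natCast, Nat.cast_mul, Nat.cast_mul, e3]
        ring
    rw [e4]
  have h5 : ∑ b ∈ range R, ‖EE Y f ((b : ℝ) / R)‖ ^ 2 * ‖∑ n ∈ Icc N0 (M - δ), ee (-(((G (n + δ) - G n : ℤ) : ℝ) * ((b : ℝ) / R)))‖ ≤
      R * (M / u * rc Y f 0 + M * ∑ q ∈ Icc 1 P, 4 / (J : ℝ) ^ 2 * F q) := by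
    refine (sum_le_sum fun b hb => mul_le_mul_of_nonneg_left (h4 b hb) (by positivity)).trans (le_of_eq ?_)
    simp_rw [mul_add]
    rw [sum_add_distrib]
    congr 1
    · rw [← sum_mul, hpars]; ring
    · simp_rw [mul_sum]
      rw [sum_comm]
      refine sum_congr rfl fun q hq => ?_
      have h6 := sq_rc Y R J hR0 f (((q * A.natAbs) * δ : ℕ) : ℤ) (hR2 q hq)
      have h7 : ∑ b ∈ range R, ‖EE Y f ((b : ℝ) / R)‖ ^ 2 * (M * (4 / (J : ℝ) ^ 2 *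
          ‖∑ j ∈ range J, ee (j * (((((q * A.natAbs) * δ : ℕ) : ℤ) : ℝ) * ((b : ℝ) / R)))‖ ^ 2)) =
          (M * (4 / (J : ℝ) ^ 2)) * ∑ b ∈ range R, ‖EE Y f ((b : ℝ) / R)‖ ^ 2 *
          ‖∑ j ∈ range J, ee (j * (((((q * A.natAbs) * δ : ℕ) : ℤ) : ℝ) * ((b : ℝ) / R)))‖ ^ 2 := by
        rw [mul_sum]
        refine sum_congr rfl fun b _ => ?_
        ring
      rw [h7, h6]
      simp only [hF]
      ring
  have h6 : (R : ℝ) * (∑ n ∈ Icc N0 (M - δ), rc Y f (G (n + δ) - G n)) ≤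
      R * (M / u * rc Y f 0 + M * ∑ q ∈ Icc 1 P, 4 / (J : ℝ) ^ 2 * F q) := by
    refine le_trans ?_ (h3.trans h5)
    exact mul_le_mul_of_nonneg_left (le_abs_self _) hRr.le
  exact le_of_mul_le_mul_left h6 hRr

/-- one difference, squares of autocorrelations -/
theorem one_diff_sq (k : ℕ) (hk : 1 ≤ k) : ∃ c m : ℕ, 1 ≤ c ∧
    ∀ (A : ℤ) (N0 M Y J δ : ℕ) (G : ℕ → ℤ) (f : ℤ → ℝ) (u : ℝ),
    A ≠ 0 → 1 ≤ M → 1 ≤ J → 1 ≤ u → 8 * (J : ℝ) * (c * u ^ m) ≤ (M : ℝ) ^ k → 1 ≤ δ → δ ≤ M →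
    (∀ (δ : ℕ) (γ : ℝ), Ph k (γ * ((A : ℝ) * δ)) (fun n => γ * ((G (N0 + n + δ) - G (N0 + n) : ℤ) : ℝ))) →
    ∑ n ∈ Icc N0 (M - δ), rc Y f (G (n + δ) - G n) ^ 2 ≤
      M / u * rc Y f 0 ^ 2 + M * ∑ q ∈ Icc 1 ⌊c * u ^ m⌋₊, 4 / (J : ℝ) ^ 2 *
        ∑ j ∈ range J, ∑ j' ∈ range J, rc Y f ((((q * A.natAbs) * δ : ℕ) : ℤ) * ((j' : ℤ) - j)) ^ 2 := by
  obtain ⟨c, m, hc, h⟩ := one_diff k hk
  refine ⟨c, m, hc, fun A N0 M Y J δ G f u hA hM hJ hu hJM hδ1 hδM hPh => ?_⟩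
  have h1 := sum_le_sum fun l (_ : l ∈ Icc (-((Y : ℤ) - 1)) ((Y : ℤ) - 1)) =>
    h A N0 M Y J δ G (FL Y f l) u hA hM hJ hu hJM hδ1 hδM hPh
  have e1 : ∑ n ∈ Icc N0 (M - δ), rc Y f (G (n + δ) - G n) ^ 2 =
      ∑ l ∈ Icc (-((Y : ℤ) - 1)) ((Y : ℤ) - 1), ∑ n ∈ Icc N0 (M - δ), rc Y (FL Y f l) (G (n + δ) - G n) := by
    rw [sum_comm]
    refine sum_congr rfl fun n _ => ?_
    rw [rc_sq]
  rw [e1]
  refine h1.trans (le_of_eq ?_)
  rw [sum_add_distrib, ← mul_sum, rc_sq, ← mul_sum]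
  congr 2
  rw [sum_comm]
  refine sum_congr rfl fun q _ => ?_
  rw [← mul_sum]
  congr 1
  rw [sum_comm]
  refine sum_congr rfl fun j _ => ?_
  rw [sum_comm]
  refine sum_congr rfl fun j' _ => ?_
  rw [rc_sq]

end Pool.Agent.Q156.AW
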