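import Pool.Agent.Q156.AW.A1

/-!
The second moment with arbitrary weights.
-/

set_option autoImplicit false

namespace Pool.Agent.Q156.AW

open Finset
open Pool.Agent.TH892.SW (rc rc_cor rc_zero rc_big div_sq)
open Pool.Agent.TH204.WR
open Pool.Agent.H373R2.NB (Ph IW IW_all)

/-- the absolute values of the correlations at the multiples of `w δ` for all `δ ≤ D` -/
lemma mult_rc_abs (Y D J w : ℕ) (hw : 1 ≤ w) (f : ℤ → ℝ) (Z Q : ℝ) (hsup : ∀ α : ℝ, ‖EE Y f α‖ ≤ Z)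
    (hQ : ∑ u ∈ Icc (1 : ℤ) Y, f u ^ 2 ≤ Q) :
    ∑ δ ∈ Icc 1 D, ∑ j ∈ range J, ∑ j' ∈ range J, |rc Y f (((w * δ : ℕ) : ℤ) * ((j' : ℤ) - j))| ≤
      D * (J * Q) + J * (√(2 * (Y * (1 + Real.log Y) ^ 4)) * √(Z ^ 2 * Q)) := by
  classical
  have hZ : 0 ≤ Z := (norm_nonneg _).trans (hsup 0)
  set I := Icc (-((Y : ℤ) - 1)) ((Y : ℤ) - 1) with hI
  set Sg := √(2 * (Y * (1 + Real.log Y) ^ 4)) * √(Z ^ 2 * Q) with hSg
  -- one `j`
  have key : ∀ j ∈ range J, ∑ δ ∈ Icc 1 D, ∑ j' ∈ range J, |rc Y f (((w * δ : ℕ) : ℤ) * ((j' : ℤ) - j))| ≤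
      D * Q + Sg := by
    intro j hj
    rw [← sum_product']
    set P := Icc 1 D ×ˢ range J with hP
    set hf : ℕ × ℕ → ℤ := fun p => ((w * p.1 : ℕ) : ℤ) * ((p.2 : ℤ) - j) with hhf
    show ∑ p ∈ P, |rc Y f (hf p)| ≤ _
    rw [← sum_filter_add_sum_filter_not P (fun p => hf p = 0)]
    have hz : ∀ p ∈ P, hf p = 0 → p.2 = j := by
      intro p hp h0
      rw [hP, mem_product, mem_Icc] at hp
      rw [hhf] at h0
      simp only at h0
      rcases mul_eq_zero.1 h0 with h1 | h1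
      · exfalso
        have h2 : w * p.1 = 0 := by exact_mod_cast h1
        have h3 : 0 < w * p.1 := Nat.mul_pos (by omega) (by omega)
        omega
      · omega
    have h2 : ∑ p ∈ P.filter (fun p => hf p = 0), |rc Y f (hf p)| ≤ D * Q := by
      have e2 : ∀ p ∈ P.filter (fun p => hf p = 0), |rc Y f (hf p)| = ∑ u ∈ Icc (1 : ℤ) Y, f u ^ 2 := by
        intro p hp
        rw [(mem_filter.1 hp).2, rc_zero, abs_of_nonneg (sum_nonneg fun _ _ => sq_nonneg _)]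
      rw [sum_congr rfl e2, sum_const, nsmul_eq_mul]
      have h3 : ((P.filter (fun p => hf p = 0)).card : ℝ) ≤ D := by
        have h4 : (P.filter (fun p => hf p = 0)).card ≤ (Icc 1 D).card := by
          refine card_le_card_of_injOn (fun p => p.1) ?_ ?_
          · intro p hp
            rw [mem_coe, mem_filter, hP, mem_product] at hp
            exact hp.1.1
          · intro p hp q hq hpq
            rw [mem_coe, mem_filter] at hp hq
            have h6 := hz p hp.1 hp.2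
            have h7 := hz q hq.1 hq.2
            apply Prod.ext
            · exact hpq
            · rw [h6, h7]
        rw [Nat.card_Icc, Nat.add_sub_cancel] at h4
        exact_mod_cast h4
      calc _ ≤ (D : ℝ) * ∑ u ∈ Icc (1 : ℤ) Y, f u ^ 2 :=
            mul_le_mul_of_nonneg_right h3 (sum_nonneg fun _ _ => sq_nonneg _)
        _ ≤ D * Q := mul_le_mul_of_nonneg_left hQ (by positivity)
    have h3 : ∑ p ∈ P.filter (fun p => ¬ hf p = 0), |rc Y f (hf p)| ≤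
        ∑ h ∈ I.filter (fun h => h ≠ 0), (h.natAbs.divisors.card : ℝ) * |rc Y f h| := by
      have h4 : ∑ p ∈ P.filter (fun p => ¬ hf p = 0), |rc Y f (hf p)| ≤
          ∑ p ∈ P.filter (fun p => hf p ∈ I.filter (fun h => h ≠ 0)), |rc Y f (hf p)| := by
        apply le_of_eq
        symm
        apply sum_subset
        · intro p hp
          rw [mem_filter] at hp ⊢
          exact ⟨hp.1, (mem_filter.1 hp.2).2⟩
        · intro p hp hp2
          rw [mem_filter] at hp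
          rw [rc_big, abs_zero]
          intro h5
          exact hp2 (mem_filter.2 ⟨hp.1, mem_filter.2 ⟨h5, hp.2⟩⟩)
      refine h4.trans ?_
      rw [← sum_fiberwise_of_maps_to (s := P.filter (fun p => hf p ∈ I.filter (fun h => h ≠ 0)))
        (t := I.filter (fun h => h ≠ 0)) (g := hf) (fun p hp => (mem_filter.1 hp).2)]
      refine sum_le_sum fun h hh => ?_
      calc ∑ p ∈ (P.filter (fun p => hf p ∈ I.filter (fun h => h ≠ 0))).filter (fun p => hf p = h), |rc Y f (hf p)|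
          = ∑ p ∈ (P.filter (fun p => hf p ∈ I.filter (fun h => h ≠ 0))).filter (fun p => hf p = h), |rc Y f h| := by
            refine sum_congr rfl fun p hp => ?_
            rw [(mem_filter.1 hp).2]
        _ = (((P.filter (fun p => hf p ∈ I.filter (fun h => h ≠ 0))).filter (fun p => hf p = h)).card : ℝ) * |rc Y f h| := by
            rw [sum_const, nsmul_eq_mul]
        _ ≤ (h.natAbs.divisors.card : ℝ) * |rc Y f h| := by
            apply mul_le_mul_of_nonneg_right _ (abs_nonneg _)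
            have hh0 := (mem_filter.1 hh).2
            have h5 : ((P.filter (fun p => hf p ∈ I.filter (fun h => h ≠ 0))).filter (fun p => hf p = h)).card ≤
                h.natAbs.divisors.card := by
              refine card_le_card_of_injOn (fun p => p.1) ?_ ?_
              · intro p hp
                rw [mem_coe, mem_filter] at hp
                rw [mem_coe, Nat.mem_divisors]
                refine ⟨?_, by omega⟩
                rw [← Int.natCast_dvd]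
                rw [← hp.2, hhf]
                refine ⟨(w : ℤ) * ((p.2 : ℤ) - j), ?_⟩
                push_cast
                ring
              · intro p hp q hq hpq
                rw [mem_coe, mem_filter, mem_filter, hP, mem_product, mem_Icc] at hp hq
                simp only at hpq
                have h6 : hf p = hf q := by rw [hp.2, hq.2]
                rw [hhf] at h6
                simp only at h6
                rw [hpq] at h6
                have h7 : ((w * q.1 : ℕ) : ℤ) ≠ 0 := by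
                  have h8 : 0 < w * q.1 := Nat.mul_pos (by omega) (by omega)
                  exact_mod_cast h8.ne'
                have h8 := mul_left_cancel₀ h7 h6
                apply Prod.ext
                · exact hpq
                · omega
            exact_mod_cast h5
    have h4 := div_rc Y f Z Q hsup hQ
    linarith
  have h1 : ∑ δ ∈ Icc 1 D, ∑ j ∈ range J, ∑ j' ∈ range J, |rc Y f (((w * δ : ℕ) : ℤ) * ((j' : ℤ) - j))| =
      ∑ j ∈ range J, ∑ δ ∈ Icc 1 D, ∑ j' ∈ range J, |rc Y f (((w * δ : ℕ) : ℤ) * ((j' : ℤ) - j))| := sum_comm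
  rw [h1]
  refine (sum_le_sum key).trans (le_of_eq ?_)
  rw [sum_const, card_range, nsmul_eq_mul]
  ring

/-- the energy with weights -/
lemma energy_w (w : ℕ → ℝ) (G : ℕ → ℤ) (N0 M Y : ℕ) (f : ℤ → ℝ) (Kb : ℤ)
    (hK : ∀ n ∈ Icc N0 M, |G n| + Y ≤ Kb) :
    ∑ k ∈ Icc (-Kb) Kb, TW w G N0 M Y f k ^ 2 =
      ∑ n ∈ Icc N0 M, ∑ n' ∈ Icc N0 M, w n * w n' * rc Y f (G n' - G n) := by
  have e1 : ∀ k : ℤ, TW w G N0 M Y f k ^ 2 = ∑ n ∈ Icc N0 M, ∑ n' ∈ Icc N0 M,
      w n * w n' * (cutf Y f (G n + k) * cutf Y f (G n' + k)) := by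
    intro k
    unfold TW
    rw [sq, sum_mul_sum]
    refine sum_congr rfl fun n _ => sum_congr rfl fun n' _ => ?_
    ring
  simp_rw [e1]
  rw [sum_comm]
  refine sum_congr rfl fun n hn => ?_
  rw [sum_comm]
  refine sum_congr rfl fun n' _ => ?_
  rw [← mul_sum, pair_sum Y f (G n) (G n') Kb (hK n hn)]

/-- close pairs -/
lemma card_pairs (N0 M D : ℕ) :
    (#((Icc N0 M ×ˢ Icc N0 M).filter (fun p => p.1 ≤ p.2 + D ∧ p.2 ≤ p.1 + D)) : ℝ) ≤
      ((M : ℝ) + 1) * (2 * D + 1) := by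
  classical
  have h1 : (Icc N0 M ×ˢ Icc N0 M).filter (fun p => p.1 ≤ p.2 + D ∧ p.2 ≤ p.1 + D) ⊆
      (Icc N0 M).biUnion (fun n => (Icc (n - D) (n + D)).image (fun n' => (n, n'))) := by
    intro p hp
    rw [mem_filter, mem_product] at hp
    rw [mem_biUnion]
    refine ⟨p.1, hp.1.1, ?_⟩
    rw [mem_image]
    refine ⟨p.2, ?_, rfl⟩
    rw [mem_Icc]
    omega
  have h2 : #((Icc N0 M ×ˢ Icc N0 M).filter (fun p => p.1 ≤ p.2 + D ∧ p.2 ≤ p.1 + D)) ≤
      (M + 1) * (2 * D + 1) := by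
    refine (card_le_card h1).trans (card_biUnion_le.trans ?_)
    calc ∑ n ∈ Icc N0 M, #((Icc (n - D) (n + D)).image (fun n' => (n, n')))
        ≤ ∑ n ∈ Icc N0 M, (2 * D + 1) := by
          refine sum_le_sum fun n _ => ?_
          refine card_image_le.trans ?_
          rw [Nat.card_Icc]
          omega
      _ = #(Icc N0 M) * (2 * D + 1) := by rw [sum_const, smul_eq_mul]
      _ ≤ (M + 1) * (2 * D + 1) := by
          apply Nat.mul_le_mul_right
          rw [Nat.card_Icc]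
          omega
  have h3 : ((#((Icc N0 M ×ˢ Icc N0 M).filter (fun p => p.1 ≤ p.2 + D ∧ p.2 ≤ p.1 + D)) : ℕ) : ℝ) ≤
      (((M + 1) * (2 * D + 1) : ℕ) : ℝ) := by exact_mod_cast h2
  push_cast at h3
  exact h3

/-- **The second moment with arbitrary weights.** -/
theorem second_w (k : ℕ) (hk : 1 ≤ k) : ∃ c m : ℕ, 1 ≤ c ∧
    ∀ (A : ℤ) (N0 M Y D J : ℕ) (G : ℕ → ℤ) (f : ℤ → ℝ) (Z Q u : ℝ) (I : Finset ℤ) (w : ℕ → ℝ),
    A ≠ 0 → 1 ≤ M → 1 ≤ J → 1 ≤ u → 8 * (J : ℝ) * (c * u ^ m) ≤ (M : ℝ) ^ k →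
    (∀ n δ, N0 ≤ n → n + δ ≤ M → D < δ → (Y : ℤ) ≤ |G (n + δ) - G n|) →
    (∀ (δ : ℕ) (γ : ℝ), Ph k (γ * ((A : ℝ) * δ)) (fun n => γ * ((G (N0 + n + δ) - G (N0 + n) : ℤ) : ℝ))) →
    (∀ α : ℝ, ‖EE Y f α‖ ≤ Z) → (∑ y ∈ Icc (1 : ℤ) Y, f y ^ 2 ≤ Q) → (∀ n, |w n| ≤ 1) →
    (∑ t ∈ I, TW w G N0 M Y f t ^ 2) ^ 2 ≤ (((M : ℝ) + 1) * (2 * D + 1)) * (Q *
      (((M : ℝ) + 1) * Q + 2 * (D * (M / u * Q) + M * ((c * u ^ m) * (4 / (J : ℝ) ^ 2 *
        (D * (J * Q) + J * (√(2 * (Y * (1 + Real.log Y) ^ 4)) * √(Z ^ 2 * Q)))))))) := by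
  classical
  obtain ⟨c, m, hc, hone⟩ := one_diff_sq k hk
  refine ⟨c, m, hc, fun A N0 M Y D J G f Z Q u I w hA hM hJ hu hJM hgap hPh hsup hQ hw => ?_⟩
  have hM0 : (0 : ℝ) < M := by exact_mod_cast hM
  have hu0 : 0 < u := by linarith
  have hJ0 : (0 : ℝ) < J := by exact_mod_cast hJ
  have hc1 : (1 : ℝ) ≤ c := by exact_mod_cast hc
  have hQ0 : 0 ≤ Q := (sum_nonneg fun _ _ => sq_nonneg _).trans hQ
  have hrc0 : rc Y f 0 ≤ Q := by rw [rc_zero]; exact hQ
  have hrc00 : 0 ≤ rc Y f 0 := by rw [rc_zero]; exact sum_nonneg fun _ _ => sq_nonneg _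
  have hrcsq : ∀ h : ℤ, rc Y f h ^ 2 ≤ Q * |rc Y f h| := by
    intro h
    rw [← sq_abs, sq]
    exact mul_le_mul_of_nonneg_right ((rc_le Y f h).trans hrc0) (abs_nonneg _)
  set P := ⌊(c : ℝ) * u ^ m⌋₊ with hP
  have hPr : (P : ℝ) ≤ c * u ^ m := Nat.floor_le (by positivity)
  have hA1 : 1 ≤ A.natAbs := Int.natAbs_pos.2 hA
  set Sg := √(2 * (Y * (1 + Real.log Y) ^ 4)) * √(Z ^ 2 * Q) with hSg
  have hSg0 : 0 ≤ Sg := by positivity
  -- the squares of the correlations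
  have h1 : ∑ δ ∈ Icc 1 M, ∑ n ∈ Icc N0 (M - δ), rc Y f (G (n + δ) - G n) ^ 2 =
      ∑ δ ∈ Icc 1 (min D M), ∑ n ∈ Icc N0 (M - δ), rc Y f (G (n + δ) - G n) ^ 2 := by
    symm
    apply sum_subset
    · exact Icc_subset_Icc_right (min_le_right _ _)
    · intro δ hδ hδ2
      rw [mem_Icc] at hδ
      apply sum_eq_zero
      intro n hn
      rw [mem_Icc] at hn
      have h2 : D < δ := by
        by_contra hcon
        apply hδ2
        rw [mem_Icc]
        exact ⟨hδ.1, le_min (by omega) hδ.2⟩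
      have h3 := hgap n δ hn.1 (by omega) h2
      rw [rc_big, zero_pow two_ne_zero]
      rw [mem_Icc]
      rintro ⟨h4, h5⟩
      have h6 : |G (n + δ) - G n| ≤ (Y : ℤ) - 1 := abs_le.2 ⟨h4, h5⟩
      linarith
  set D' := min D M with hD'
  have hD'D : (D' : ℝ) ≤ D := by exact_mod_cast min_le_left _ _
  set F : ℕ → ℕ → ℝ := fun q δ => ∑ j ∈ range J, ∑ j' ∈ range J, rc Y f ((((q * A.natAbs) * δ : ℕ) : ℤ) * ((j' : ℤ) - j)) ^ 2 with hF
  have hsumF : ∀ q ∈ Icc 1 P, ∑ δ ∈ Icc 1 D', F q δ ≤ Q * (D * (J * Q) + J * Sg) := by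
    intro q hq
    rw [mem_Icc] at hq
    have h3 := mult_rc_abs Y D' J (q * A.natAbs) (Nat.mul_pos (by omega) hA1) f Z Q hsup hQ
    have h4 : (D' : ℝ) * (J * Q) ≤ D * (J * Q) := mul_le_mul_of_nonneg_right hD'D (by positivity)
    have h5 : ∑ δ ∈ Icc 1 D', F q δ ≤ Q * ∑ δ ∈ Icc 1 D', ∑ j ∈ range J, ∑ j' ∈ range J,
        |rc Y f (((q * A.natAbs * δ : ℕ) : ℤ) * ((j' : ℤ) - j))| := by
      simp only [hF, mul_sum]
      exact sum_le_sum fun δ _ => sum_le_sum fun j _ => sum_le_sum fun j' _ => hrcsq _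
    refine h5.trans (mul_le_mul_of_nonneg_left ?_ hQ0)
    linarith
  have hfin : ∑ δ ∈ Icc 1 D', ∑ n ∈ Icc N0 (M - δ), rc Y f (G (n + δ) - G n) ^ 2 ≤
      Q * (D * (M / u * Q) + M * ((c * u ^ m) * (4 / (J : ℝ) ^ 2 * (D * (J * Q) + J * Sg)))) := by
    have hstep : ∀ δ ∈ Icc 1 D', ∑ n ∈ Icc N0 (M - δ), rc Y f (G (n + δ) - G n) ^ 2 ≤
        M / u * Q ^ 2 + M * ∑ q ∈ Icc 1 P, 4 / (J : ℝ) ^ 2 * F q δ := by
      intro δ hδ
      rw [mem_Icc] at hδ
      have h3 := hone A N0 M Y J δ G f u hA hM hJ hu hJM hδ.1 (hδ.2.trans (min_le_right _ _)) hPh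
      refine h3.trans ?_
      have h8 : (M : ℝ) / u * rc Y f 0 ^ 2 ≤ M / u * Q ^ 2 :=
        mul_le_mul_of_nonneg_left (pow_le_pow_left₀ hrc00 hrc0 2) (by positivity)
      linarith
    refine (sum_le_sum hstep).trans ?_
    rw [sum_add_distrib, sum_const, Nat.card_Icc, Nat.add_sub_cancel, nsmul_eq_mul, ← mul_sum, sum_comm]
    have h3 : (D' : ℝ) * (M / u * Q ^ 2) ≤ D * (M / u * Q ^ 2) := mul_le_mul_of_nonneg_right hD'D (by positivity)
    have h4 : ∑ q ∈ Icc 1 P, ∑ δ ∈ Icc 1 D', 4 / (J : ℝ) ^ 2 * F q δ ≤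
        (c * u ^ m) * (4 / (J : ℝ) ^ 2 * (Q * (D * (J * Q) + J * Sg))) := by
      have h5 : ∀ q ∈ Icc 1 P, ∑ δ ∈ Icc 1 D', 4 / (J : ℝ) ^ 2 * F q δ ≤ 4 / (J : ℝ) ^ 2 * (Q * (D * (J * Q) + J * Sg)) := by
        intro q hq
        rw [← mul_sum]
        exact mul_le_mul_of_nonneg_left (hsumF q hq) (by positivity)
      refine (sum_le_sum h5).trans ?_
      rw [sum_const, Nat.card_Icc, Nat.add_sub_cancel, nsmul_eq_mul]
      exact mul_le_mul_of_nonneg_right hPr (by positivity)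
    have h5 := mul_le_mul_of_nonneg_left h4 hM0.le
    have e1 : Q * (D * (M / u * Q) + M * ((c * u ^ m) * (4 / (J : ℝ) ^ 2 * (D * (J * Q) + J * Sg)))) =
        D * (M / u * Q ^ 2) + M * ((c * u ^ m) * (4 / (J : ℝ) ^ 2 * (Q * (D * (J * Q) + J * Sg)))) := by ring
    rw [e1]
    linarith
  -- all pairs
  have hall : ∑ n ∈ Icc N0 M, ∑ n' ∈ Icc N0 M, rc Y f (G n' - G n) ^ 2 ≤
      Q * (((M : ℝ) + 1) * Q + 2 * (D * (M / u * Q) + M * ((c * u ^ m) * (4 / (J : ℝ) ^ 2 * (D * (J * Q) + J * Sg))))) := by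
    rw [symm_sum (fun n n' => rc Y f (G n' - G n) ^ 2), h1]
    · have h2 : ∑ n ∈ Icc N0 M, rc Y f (G n - G n) ^ 2 ≤ ((M : ℝ) + 1) * Q ^ 2 := by
        simp only [sub_self]
        rw [sum_const, nsmul_eq_mul]
        apply mul_le_mul
        · have : #(Icc N0 M) ≤ M + 1 := by rw [Nat.card_Icc]; omega
          exact_mod_cast this
        · exact pow_le_pow_left₀ hrc00 hrc0 2
        · positivity
        · positivity
      have e1 : Q * (((M : ℝ) + 1) * Q + 2 * (D * (M / u * Q) + M * ((c * u ^ m) * (4 / (J : ℝ) ^ 2 * (D * (J * Q) + J * Sg))))) =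
          ((M : ℝ) + 1) * Q ^ 2 + 2 * (Q * (D * (M / u * Q) + M * ((c * u ^ m) * (4 / (J : ℝ) ^ 2 * (D * (J * Q) + J * Sg))))) := by ring
      rw [e1]
      linarith
    · intro n n'
      rw [← rc_neg]
      congr 2
      ring
  -- the moment
  obtain ⟨Kb, hK1, hK2⟩ : ∃ Kb : ℤ, (∀ n ∈ Icc N0 M, |G n| + Y ≤ Kb) ∧ I ⊆ Icc (-Kb) Kb := by
    refine ⟨∑ n ∈ Icc N0 M, |G n| + Y + ∑ k ∈ I, |k|, ?_, ?_⟩
    · intro n hn
      have h1 := single_le_sum (f := fun n => |G n|) (fun i _ => abs_nonneg _) hn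
      have h2 : 0 ≤ ∑ k ∈ I, |k| := sum_nonneg fun _ _ => abs_nonneg _
      linarith
    · intro k hk
      have h1 := single_le_sum (f := fun k : ℤ => |k|) (fun i _ => abs_nonneg _) hk
      have h2 : 0 ≤ ∑ n ∈ Icc N0 M, |G n| := sum_nonneg fun _ _ => abs_nonneg _
      have h3 : (0 : ℤ) ≤ Y := Int.natCast_nonneg Y
      rw [mem_Icc, ← abs_le]
      linarith
  have hm1 : ∑ k ∈ I, TW w G N0 M Y f k ^ 2 ≤ ∑ n ∈ Icc N0 M, ∑ n' ∈ Icc N0 M, |rc Y f (G n' - G n)| := by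
    refine (sum_le_sum_of_subset_of_nonneg hK2 fun _ _ _ => sq_nonneg _).trans ?_
    rw [energy_w w G N0 M Y f Kb hK1]
    refine sum_le_sum fun n _ => sum_le_sum fun n' _ => ?_
    refine (le_abs_self _).trans ?_
    rw [abs_mul, abs_mul]
    have h2 : |w n| * |w n'| ≤ 1 := mul_le_one₀ (hw n) (abs_nonneg _) (hw n')
    exact mul_le_of_le_one_left (abs_nonneg _) h2
  have hm2 : ∑ n ∈ Icc N0 M, ∑ n' ∈ Icc N0 M, |rc Y f (G n' - G n)| =
      ∑ p ∈ (Icc N0 M ×ˢ Icc N0 M).filter (fun p => p.1 ≤ p.2 + D ∧ p.2 ≤ p.1 + D), |rc Y f (G p.2 - G p.1)| := by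
    rw [← sum_product']
    symm
    apply sum_subset (filter_subset _ _)
    intro p hp hp2
    rw [mem_product, mem_Icc, mem_Icc] at hp
    rw [mem_filter, mem_product, mem_Icc, mem_Icc, not_and] at hp2
    have h3 := hp2 hp
    rw [rc_big, abs_zero]
    rw [mem_Icc, ← abs_le]
    intro h4
    by_cases h5 : p.1 ≤ p.2 + D
    · have h6 : D < p.2 - p.1 := by
        by_contra hcon
        exact h3 ⟨h5, by omega⟩
      have h7 := hgap p.1 (p.2 - p.1) hp.1.1 (by omega) h6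
      rw [Nat.add_sub_cancel' (by omega)] at h7
      linarith
    · have h6 : D < p.1 - p.2 := by omega
      have h7 := hgap p.2 (p.1 - p.2) hp.2.1 (by omega) h6
      rw [Nat.add_sub_cancel' (by omega), abs_sub_comm] at h7
      linarith
  have hm3 : (∑ p ∈ (Icc N0 M ×ˢ Icc N0 M).filter (fun p => p.1 ≤ p.2 + D ∧ p.2 ≤ p.1 + D), |rc Y f (G p.2 - G p.1)|) ^ 2 ≤
      (((M : ℝ) + 1) * (2 * D + 1)) * ∑ n ∈ Icc N0 M, ∑ n' ∈ Icc N0 M, rc Y f (G n' - G n) ^ 2 := by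
    refine (sq_sum_le_card_mul_sum_sq).trans ?_
    apply mul_le_mul (card_pairs N0 M D) _ (sum_nonneg fun _ _ => sq_nonneg _) (by positivity)
    rw [← sum_product']
    calc ∑ p ∈ (Icc N0 M ×ˢ Icc N0 M).filter (fun p => p.1 ≤ p.2 + D ∧ p.2 ≤ p.1 + D), |rc Y f (G p.2 - G p.1)| ^ 2
        ≤ ∑ p ∈ Icc N0 M ×ˢ Icc N0 M, |rc Y f (G p.2 - G p.1)| ^ 2 :=
          sum_le_sum_of_subset_of_nonneg (filter_subset _ _) (fun _ _ _ => by positivity)
      _ = _ := sum_congr rfl fun p _ => by rw [sq_abs]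
  calc (∑ t ∈ I, TW w G N0 M Y f t ^ 2) ^ 2
      ≤ (∑ n ∈ Icc N0 M, ∑ n' ∈ Icc N0 M, |rc Y f (G n' - G n)|) ^ 2 :=
        pow_le_pow_left₀ (sum_nonneg fun _ _ => sq_nonneg _) hm1 2
    _ ≤ _ := by
        rw [hm2]
        refine hm3.trans ?_
        exact mul_le_mul_of_nonneg_left hall (by positivity)

end Pool.Agent.Q156.AW
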