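import Pool.Agent.TH204.WR.W5
import Pool.Agent.Q156.AW.A2

/-!
For all but few `t` the weighted sum of `f` over the values `P n + t` in `[1,Y]` is small, for every
function `f` with small exponential sums and for arbitrary weights.
-/

set_option autoImplicit false

namespace Pool.Agent.Q156.AW

open Finset Filter
open Pool.Agent.TH204.WR

/-- arithmetic with weights -/
lemma arith_W (W V1 : ℕ) (S' T L M D Q Bo E Yk : ℝ) (hL : 216 ≤ L) (hT : 0 ≤ T) (hM : M + 1 ≤ 2 * S')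
    (hM0 : 0 ≤ M) (hD : 2 * D + 1 ≤ 3 * Yk) (hD0 : 0 ≤ D) (hQ : Q ≤ 36 * E) (hQ0 : 0 ≤ Q)
    (hprod : S' * Yk * E ≤ T * L ^ V1) (hBo : Bo ≤ T / L ^ (2 * W + V1 + 1)) (hBo0 : 0 ≤ Bo) :
    ((M + 1) * (2 * D + 1)) * (Q * Bo) ≤ (T / L ^ W) ^ 2 := by
  have hL0 : 0 < L := by linarith
  have hLp0 : ∀ n : ℕ, 0 < L ^ n := fun n => by positivity
  have hS' : 0 ≤ S' := by linarith
  have hYk : 0 ≤ Yk := by linarith
  have hE : 0 ≤ E := by linarith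
  calc ((M + 1) * (2 * D + 1)) * (Q * Bo)
      ≤ ((2 * S') * (3 * Yk)) * ((36 * E) * (T / L ^ (2 * W + V1 + 1))) := by gcongr
    _ = 216 * (S' * Yk * E) * (T / L ^ (2 * W + V1 + 1)) := by ring
    _ ≤ L * (T * L ^ V1) * (T / L ^ (2 * W + V1 + 1)) := by gcongr
    _ = (T / L ^ W) ^ 2 := by
        rw [show 2 * W + V1 + 1 = W + W + V1 + 1 by ring, pow_add, pow_add, pow_add, pow_one]
        have h1 := (hLp0 W).ne'
        have h2 := (hLp0 V1).ne'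
        field_simp

open Polynomial in
theorem TW_most (k : ℕ) (hk : 1 ≤ k) (P : ℤ[X]) (hP : P.natDegree = k + 1) (U1 U2 c1 c2 C : ℕ) :
    ∃ B A X0 : ℕ, ∀ x : ℕ, X0 ≤ x → ∀ Y : ℕ,
    rt k x ^ k * Real.log x ^ B ≤ Y → (Y : ℝ) ≤ x * Real.log x ^ C →
    ∀ f : ℤ → ℝ, (∀ α : ℝ, ‖EE Y f α‖ ≤ Y / Real.log Y ^ A) →
    (∑ u ∈ Icc (1 : ℤ) Y, f u ^ 2 ≤ 9 * Y * Real.log Y ^ 2) → ∀ w : ℕ → ℝ, (∀ n, |w n| ≤ 1) →
    (((Icc (-(x : ℤ)) x).filter (fun t : ℤ => (Y : ℝ) / (rt k x ^ k * Real.log x ^ U1) <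
      |TW w (fun n => P.eval (n : ℤ)) ⌈rt k x / Real.log x ^ c1⌉₊ ⌊rt k x * Real.log x ^ c2⌋₊ Y f t|)).card : ℝ) ≤
      x / Real.log x ^ U2 := by
  classical
  obtain ⟨c, m, hc, hsec⟩ := second_w k hk
  obtain ⟨nP, σ, hσ, hgr⟩ := growth k hk P hP
  obtain ⟨W0, hW0⟩ : ∃ W0, W0 = 2 * U1 + U2 := ⟨_, rfl⟩
  obtain ⟨V1, hV1⟩ : ∃ V1, V1 = c2 + c1 * k + 2 := ⟨_, rfl⟩
  obtain ⟨W, hW⟩ : ∃ W, W = 2 * W0 + V1 + 1 := ⟨_, rfl⟩
  obtain ⟨a, ha⟩ : ∃ a, a = c1 * k + c2 + 3 + W := ⟨_, rfl⟩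
  obtain ⟨A, hA⟩ : ∃ A, A = 2 * (m * a) + c2 + 5 + W := ⟨_, rfl⟩
  obtain ⟨B, hB⟩ : ∃ B, B = c2 + 3 + W := ⟨_, rfl⟩
  obtain ⟨e1, he1⟩ : ∃ e1, e1 = 2 * (m * a) + c2 + c1 * k + 3 + W + C + c1 := ⟨_, rfl⟩
  have hev : ∀ᶠ x : ℕ in atTop, (5000 * (c : ℝ) ^ 2 * 2 ^ k + 2 ^ (A + 20) + nP + 10) ≤ Real.log x ∧
      Real.log x ^ e1 ≤ (x : ℝ) ^ ((1 : ℝ) / (k + 1)) := by
    filter_upwards [evt_log_ge (5000 * (c : ℝ) ^ 2 * 2 ^ k + 2 ^ (A + 20) + nP + 10),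
      evt_log_pow e1 ((1 : ℝ) / (k + 1)) (by positivity)] with x h1 h2
    exact ⟨h1, h2⟩
  obtain ⟨X0, hX0⟩ := eventually_atTop.1 hev
  refine ⟨B, A, max X0 1, fun x hx Y hY1 hY2 f hsup hsq v hv => ?_⟩
  obtain ⟨hL, hLS⟩ := hX0 x ((le_max_left _ _).trans hx)
  have hx1 : 1 ≤ x := (le_max_right _ _).trans hx
  have hSr : rt k x = (x : ℝ) ^ ((1 : ℝ) / (k + 1)) := rfl
  rw [← hSr] at hLS
  have hSp := rt_pow k x
  clear hev hX0 hSr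
  generalize hSd : rt k x = S at *
  generalize hLd : Real.log x = L at *
  have hc1 : (1 : ℝ) ≤ c := by exact_mod_cast hc
  have h2k : (1 : ℝ) ≤ 2 ^ k := one_le_pow₀ (by norm_num)
  have hnPr : (0 : ℝ) ≤ nP := Nat.cast_nonneg _
  have h5000 : (0 : ℝ) ≤ 5000 * (c : ℝ) ^ 2 * 2 ^ k := by positivity
  have h2p : (0 : ℝ) < 2 ^ (A + 20) := by positivity
  have hp20 : ∀ a b : ℕ, a + b ≤ A + 20 → (2 : ℝ) ^ a * 2 ^ b ≤ L := by
    intro a b hab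
    rw [← pow_add]
    have := pow_le_pow_right₀ (show (1 : ℝ) ≤ 2 by norm_num) hab
    linarith
  have hL1024 : 1024 ≤ L := by
    have := hp20 10 0 (by omega)
    norm_num at this
    exact this
  have hL0 : 0 < L := by linarith
  have hL1 : 1 ≤ L := by linarith
  have hLp0 : ∀ n : ℕ, 0 < L ^ n := fun n => by positivity
  have hLp : ∀ n : ℕ, 1 ≤ L ^ n := fun n => one_le_pow₀ hL1
  have hLL : ∀ {i j : ℕ}, i ≤ j → L ^ i ≤ L ^ j := fun h => pow_le_pow_right₀ hL1 h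
  have hxr : (1 : ℝ) ≤ x := by exact_mod_cast hx1
  have hx0 : (0 : ℝ) < x := by linarith
  have hLS' : ∀ i : ℕ, i ≤ e1 → L ^ i ≤ S := fun i hi => (hLL hi).trans hLS
  have hLS1 : L ≤ S := by simpa using hLS' 1 (by omega)
  have hS1 : 1 ≤ S := hL1.trans hLS1
  have hS0 : 0 < S := by linarith
  have hSx : S ≤ x := by rw [← hSp]; exact le_self_pow₀ hS1 (by omega)
  have hSk1 : S ≤ S ^ k := le_self_pow₀ hS1 (by omega)
  have hSk0 : 0 < S ^ k := by positivity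
  have hSY : S ^ k ≤ Y := by
    refine le_trans ?_ hY1
    exact le_mul_of_one_le_right hSk0.le (hLp B)
  have hYS : S ≤ Y := hSk1.trans hSY
  have hY0 : (0 : ℝ) < Y := by linarith
  have hYn : 1 ≤ Y := by exact_mod_cast (hS1.trans hYS)
  -- log Y
  obtain ⟨ℓ, hℓ⟩ : ∃ ℓ, ℓ = Real.log Y := ⟨_, rfl⟩
  have hlogS : L ≤ 2 * (k * Real.log S) := by
    have h1 : L = (k + 1) * Real.log S := by
      rw [← hLd, ← hSp, Real.log_pow]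
      push_cast; ring
    have h2 : 0 ≤ Real.log S := Real.log_nonneg hS1
    have h3 : (1 : ℝ) ≤ k := by exact_mod_cast hk
    rw [h1]
    have h4 := mul_nonneg (sub_nonneg.2 h3) h2
    linarith
  have hℓ1 : L / 2 ≤ ℓ := by
    have h1 := Real.log_le_log hSk0 hSY
    rw [Real.log_pow, ← hℓ] at h1
    linarith
  have hℓ2 : ℓ ≤ 2 * L := by
    have h1 : (Y : ℝ) ≤ (x : ℝ) ^ 2 := by
      calc (Y : ℝ) ≤ x * L ^ C := hY2
        _ ≤ x * x := by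
            apply mul_le_mul_of_nonneg_left _ hx0.le
            exact (hLS' C (by omega)).trans hSx
        _ = (x : ℝ) ^ 2 := by ring
    have h2 := Real.log_le_log hY0 h1
    rw [Real.log_pow, hLd, ← hℓ] at h2
    exact_mod_cast h2
  have hℓ0 : 0 < ℓ := by linarith
  rw [← hℓ] at hsup hsq
  -- the ranges
  obtain ⟨N0, hN0⟩ : ∃ N0, N0 = ⌈S / L ^ c1⌉₊ := ⟨_, rfl⟩
  obtain ⟨M, hM⟩ : ∃ M, M = ⌊S * L ^ c2⌋₊ := ⟨_, rfl⟩
  have hN0r : S / L ^ c1 ≤ N0 := by rw [hN0]; exact Nat.le_ceil _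
  have hN0L : L ≤ N0 := by
    refine le_trans ?_ hN0r
    rw [le_div_iff₀ (hLp0 _), ← pow_succ']
    exact hLS' _ (by omega)
  have hN0P : nP ≤ N0 := by
    have : (nP : ℝ) ≤ N0 := by linarith
    exact_mod_cast this
  have hN01 : 1 ≤ N0 := by
    have : (1 : ℝ) ≤ N0 := by linarith
    exact_mod_cast this
  have hM3 : (M : ℝ) ≤ S * L ^ c2 := by rw [hM]; exact Nat.floor_le (by positivity)
  have hSLc : S ≤ S * L ^ c2 := le_mul_of_one_le_right hS0.le (hLp c2)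
  have hM1 : S / 2 ≤ M := by
    have := Nat.lt_floor_add_one (S * L ^ c2)
    rw [← hM] at this
    linarith
  have hM2 : (M : ℝ) + 1 ≤ 2 * (S * L ^ c2) := by linarith
  have hMr1 : (1 : ℝ) ≤ M := by linarith
  have hMn : 1 ≤ M := by exact_mod_cast hMr1
  -- D
  obtain ⟨D, hD⟩ : ∃ D, D = Y / N0 ^ k := ⟨_, rfl⟩
  have hN0k : 0 < N0 ^ k := Nat.pow_pos hN01
  have hDS : (D : ℝ) * S ^ k ≤ Y * L ^ (c1 * k) := by
    have h1 : D * N0 ^ k ≤ Y := by rw [hD]; exact Nat.div_mul_le_self _ _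
    have h2 : (D : ℝ) * (N0 : ℝ) ^ k ≤ Y := by exact_mod_cast h1
    have h3 : S ≤ N0 * L ^ c1 := (div_le_iff₀ (hLp0 _)).1 hN0r
    calc (D : ℝ) * S ^ k ≤ D * (N0 * L ^ c1) ^ k := by gcongr
      _ = (D * (N0 : ℝ) ^ k) * L ^ (c1 * k) := by rw [mul_pow, ← pow_mul]; ring
      _ ≤ Y * L ^ (c1 * k) := by gcongr
  have hD3 : 2 * (D : ℝ) + 1 ≤ 3 * (Y * L ^ (c1 * k) / S ^ k) := by
    have h1 : (D : ℝ) ≤ Y * L ^ (c1 * k) / S ^ k := by rw [le_div_iff₀ hSk0]; exact hDS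
    have h2 : 1 ≤ Y * L ^ (c1 * k) / S ^ k := by
      rw [one_le_div hSk0]
      exact hSY.trans (le_mul_of_one_le_right hY0.le (hLp _))
    linarith
  have hgap : ∀ n δ, N0 ≤ n → n + δ ≤ M → D < δ →
      (Y : ℤ) ≤ |(fun n : ℕ => P.eval (n : ℤ)) (n + δ) - (fun n : ℕ => P.eval (n : ℤ)) n| := by
    intro n δ hn _ hδ
    have h1 := gap k P nP σ (fun n hn => (hgr n hn).1) N0 hN0P n δ hn
    have h2 : Y < δ * N0 ^ k := by
      rw [hD, Nat.div_lt_iff_lt_mul hN0k] at hδ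
      exact hδ
    have h3 : (Y : ℤ) < (δ : ℤ) * (N0 : ℤ) ^ k := by exact_mod_cast h2
    have h4 : σ * (P.eval ((n + δ : ℕ) : ℤ) - P.eval (n : ℤ)) ≤ |P.eval ((n + δ : ℕ) : ℤ) - P.eval (n : ℤ)| := by
      rcases hσ with h | h
      · rw [h, one_mul]; exact le_abs_self _
      · rw [h, neg_one_mul]; exact neg_le_abs _
    show (Y : ℤ) ≤ |P.eval ((n + δ : ℕ) : ℤ) - P.eval (n : ℤ)|
    linarith
  -- J
  obtain ⟨w, hw⟩ : ∃ w, w = (c : ℝ) * (L ^ a) ^ m := ⟨_, rfl⟩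
  have hw1 : 1 ≤ w := by
    rw [hw]
    exact one_le_mul_of_one_le_of_one_le hc1 (one_le_pow₀ (hLp a))
  have hw0 : 0 < w := by linarith
  obtain ⟨J, hJ⟩ : ∃ J, J = ⌊(M : ℝ) ^ k / (8 * w)⌋₊ := ⟨_, rfl⟩
  have hMw : 8 * w ≤ (M : ℝ) ^ k := by
    have h1 : L ^ (m * a + 1) ≤ S := hLS' _ (by
      rw [he1]
      have : m * a ≤ 2 * (m * a) := by omega
      omega)
    have h2 : w * L ≤ c * S := by
      calc w * L = c * L ^ (m * a + 1) := by rw [hw, ← pow_mul, mul_comm a m, pow_succ]; ring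
        _ ≤ c * S := by gcongr
    have h3 : 16 * w * c ≤ w * L := by
      have h5 : 16 * (c : ℝ) ≤ L := by
        have h6 : (c : ℝ) ≤ (c : ℝ) ^ 2 := le_self_pow₀ hc1 two_ne_zero
        have h7 : (c : ℝ) ^ 2 ≤ (c : ℝ) ^ 2 * 2 ^ k := le_mul_of_one_le_right (by positivity) h2k
        have h8 : 5000 * (c : ℝ) ^ 2 * 2 ^ k = 5000 * ((c : ℝ) ^ 2 * 2 ^ k) := by ring
        linarith
      calc 16 * w * c = w * (16 * c) := by ring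
        _ ≤ w * L := by gcongr
    have h4 : 16 * w ≤ S := by
      have h6 : c * (16 * w) ≤ c * S := by linarith
      exact le_of_mul_le_mul_left h6 (by linarith)
    have h5 : (M : ℝ) ≤ (M : ℝ) ^ k := le_self_pow₀ hMr1 (by omega)
    linarith
  have hJle : (J : ℝ) ≤ (M : ℝ) ^ k / (8 * w) := by rw [hJ]; exact Nat.floor_le (by positivity)
  have hJge1 : 1 ≤ J := by
    rw [hJ]
    apply Nat.le_floor
    rw [Nat.cast_one, le_div_iff₀ (by positivity), one_mul]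
    exact hMw
  have hJr1 : (1 : ℝ) ≤ J := by exact_mod_cast hJge1
  have hJM : 8 * (J : ℝ) * (c * (L ^ a) ^ m) ≤ (M : ℝ) ^ k := by
    rw [← hw]
    rw [le_div_iff₀ (by positivity)] at hJle
    linarith
  have hJge : (M : ℝ) ^ k ≤ 16 * (c * (L ^ a) ^ m) * J := by
    rw [← hw]
    have h1 : (M : ℝ) ^ k / (8 * w) < J + 1 := by rw [hJ]; exact Nat.lt_floor_add_one _
    rw [div_lt_iff₀ (by positivity)] at h1
    have h2 := mul_le_mul_of_nonneg_left hJr1 hw0.le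
    have h3 : ((J : ℝ) + 1) * (8 * w) = 8 * (w * J) + 8 * w := by ring
    have h4 : 16 * w * J = 16 * (w * J) := by ring
    rw [h3] at h1
    rw [h4]
    linarith
  have hlc : P.leadingCoeff ≠ 0 := by
    apply leadingCoeff_ne_zero.2
    intro h
    rw [h, natDegree_zero] at hP
    omega
  have hsecond := hsec (((k + 1).factorial : ℤ) * P.leadingCoeff) N0 M Y D J (fun n => P.eval (n : ℤ)) f
    (Y / ℓ ^ A) (9 * Y * ℓ ^ 2) (L ^ a) (Icc (-(x : ℤ)) x) v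
    (mul_ne_zero (by exact_mod_cast (Nat.factorial_ne_zero _)) hlc) hMn hJge1 (hLp a) hJM hgap
    (fun δ γ => Ph_diff k P hP N0 δ γ) hsup hsq hv
  rw [← hℓ] at hsecond
  have hQ0 : 0 ≤ 9 * (Y : ℝ) * ℓ ^ 2 := by positivity
  have hQ : 9 * (Y : ℝ) * ℓ ^ 2 ≤ 36 * (Y * L ^ 2) := by
    calc 9 * (Y : ℝ) * ℓ ^ 2 ≤ 9 * Y * (2 * L) ^ 2 := by gcongr
      _ = _ := by ring
  have hSg : √(2 * (Y * (1 + ℓ) ^ 4)) * √((Y / ℓ ^ A) ^ 2 * (9 * Y * ℓ ^ 2)) ≤ Y ^ 2 * (L ^ 4 / L ^ A) := by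
    rw [← Real.sqrt_mul (by positivity)]
    rw [show (Y : ℝ) ^ 2 * (L ^ 4 / L ^ A) = √((Y ^ 2 * (L ^ 4 / L ^ A)) ^ 2) by
      rw [Real.sqrt_sq (by positivity)]]
    apply Real.sqrt_le_sqrt
    have h3 : 1 / ℓ ^ A ≤ 2 ^ A / L ^ A := by
      rw [← div_pow, div_eq_mul_inv 2 L, ← one_div_pow]
      apply pow_le_pow_left₀ (by positivity)
      rw [← div_eq_mul_inv, div_le_div_iff₀ hℓ0 hL0]
      linarith
    have h1ℓ : 1 + ℓ ≤ 4 * L := by linarith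
    calc 2 * (Y * (1 + ℓ) ^ 4) * ((Y / ℓ ^ A) ^ 2 * (9 * Y * ℓ ^ 2))
        = 18 * (Y : ℝ) ^ 4 * (1 + ℓ) ^ 4 * ℓ ^ 2 * (1 / ℓ ^ A) ^ 2 := by ring
      _ ≤ 18 * (Y : ℝ) ^ 4 * (4 * L) ^ 4 * (2 * L) ^ 2 * (2 ^ A / L ^ A) ^ 2 := by gcongr
      _ = (Y ^ 2 * (L ^ 3 / L ^ A)) ^ 2 * (18432 * (2 ^ A) ^ 2) := by ring
      _ ≤ (Y ^ 2 * (L ^ 3 / L ^ A)) ^ 2 * L ^ 2 := by
          apply mul_le_mul_of_nonneg_left _ (by positivity)
          have h4 := hp20 A 8 (by omega)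
          calc 18432 * ((2 : ℝ) ^ A) ^ 2 ≤ 65536 * ((2 : ℝ) ^ A) ^ 2 := by
                apply mul_le_mul_of_nonneg_right (by norm_num) (by positivity)
            _ = (2 ^ A * 2 ^ 8) ^ 2 := by ring
            _ ≤ L ^ 2 := pow_le_pow_left₀ (by positivity) h4 2
      _ = (Y ^ 2 * (L ^ 4 / L ^ A)) ^ 2 := by ring
  have harith := arith_T k c m c1 c2 W a B A S L Y M D J (9 * Y * ℓ ^ 2)
    (√(2 * (Y * (1 + ℓ) ^ 4)) * √((Y / ℓ ^ A) ^ 2 * (9 * Y * ℓ ^ 2))) hc ha hB.ge hA.ge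
    (by linarith) (hLS' _ (by omega)) hk hY1 hM1 hM2 hM3 (Nat.cast_nonneg _) hDS hJge
    (by linarith) hQ0 hQ (by positivity) hSg
  have hT0 : 0 ≤ (Y : ℝ) ^ 2 * (S / S ^ k) := by positivity
  rw [hW] at harith
  have hW2 := arith_W W0 V1 (S * L ^ c2) (Y ^ 2 * (S / S ^ k)) L M D (9 * Y * ℓ ^ 2) _ (Y * L ^ 2)
    (Y * L ^ (c1 * k) / S ^ k) (by linarith) hT0 hM2 (Nat.cast_nonneg _) hD3 (Nat.cast_nonneg _) hQ hQ0
    (le_of_eq (by rw [hV1, pow_add, pow_add]; ring)) harith (by positivity)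
  have hT : ∑ t ∈ Icc (-(x : ℤ)) x, TW v (fun n => P.eval (n : ℤ)) N0 M Y f t ^ 2 ≤ (Y ^ 2 * (S / S ^ k)) / L ^ W0 := by
    have h1 := hsecond.trans hW2
    exact (pow_le_pow_iff_left₀ (sum_nonneg fun _ _ => sq_nonneg _) (by positivity) two_ne_zero).1 h1
  -- Chebyshev
  rw [← hN0, ← hM]
  obtain ⟨τ, hτ⟩ : ∃ τ : ℝ, τ = Y / (S ^ k * L ^ U1) := ⟨_, rfl⟩
  have hτ0 : 0 < τ := by rw [hτ]; positivity
  rw [← hτ]
  obtain ⟨Fs, hFs⟩ : ∃ Fs, Fs = (Icc (-(x : ℤ)) x).filter (fun t : ℤ => τ < |TW v (fun n => P.eval (n : ℤ)) N0 M Y f t|) := ⟨_, rfl⟩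
  rw [← hFs]
  have hch : (Fs.card : ℝ) * τ ^ 2 ≤ ∑ t ∈ Icc (-(x : ℤ)) x, TW v (fun n => P.eval (n : ℤ)) N0 M Y f t ^ 2 := by
    calc (Fs.card : ℝ) * τ ^ 2 = ∑ t ∈ Fs, τ ^ 2 := by rw [sum_const, nsmul_eq_mul]
      _ ≤ ∑ t ∈ Fs, TW v (fun n => P.eval (n : ℤ)) N0 M Y f t ^ 2 := by
          refine sum_le_sum fun t ht => ?_
          rw [hFs, mem_filter] at ht
          rw [← sq_abs (TW v _ N0 M Y f t)]
          exact pow_le_pow_left₀ hτ0.le ht.2.le 2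
      _ ≤ _ := by
          rw [hFs]
          exact sum_le_sum_of_subset_of_nonneg (filter_subset _ _) (fun _ _ _ => sq_nonneg _)
  have h6 : (Fs.card : ℝ) * τ ^ 2 ≤ (Y ^ 2 * (S / S ^ k)) / L ^ W0 := hch.trans hT
  rw [← le_div_iff₀ (by positivity)] at h6
  refine h6.trans (le_of_eq ?_)
  rw [hτ, hW0, ← hSp]
  have := (hLp0 U1).ne'
  have := (hLp0 U2).ne'
  have := hSk0.ne'
  rw [pow_add L, two_mul, pow_add L, pow_succ S k]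
  field_simp

end Pool.Agent.Q156.AW
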