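import Pool.Agent.TH204.WR.W6
import Pool.Agent.Q156.AW.A2

/-!
From a grid of cutoffs to all windows, with weights.
-/

set_option autoImplicit false

namespace Pool.Agent.Q156.AW

open Finset
open Pool.Agent.TH892.SW (gr grid)
open Pool.Agent.TH204.WR

lemma TW_zero (w : ℕ → ℝ) (G : ℕ → ℤ) (N0 M : ℕ) (f : ℤ → ℝ) (t : ℤ) : TW w G N0 M 0 f t = 0 := by
  unfold TW
  apply sum_eq_zero
  intro n _
  rw [cutf_out, mul_zero]
  rw [mem_Icc]
  push_cast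
  omega

lemma TW_diff (w : ℕ → ℝ) (G : ℕ → ℤ) (N0 M Y Y' : ℕ) (hY : Y' ≤ Y) (f : ℤ → ℝ) (t : ℤ) :
    TW w G N0 M Y f t - TW w G N0 M Y' f t =
      ∑ n ∈ (Icc N0 M).filter (fun n => (Y' : ℤ) < G n + t ∧ G n + t ≤ Y), w n * f (G n + t) := by
  unfold TW
  rw [← sum_sub_distrib, sum_filter]
  refine sum_congr rfl fun n _ => ?_
  rw [← mul_sub]
  unfold cutf
  have hYz : (Y' : ℤ) ≤ Y := by exact_mod_cast hY
  have h0 : (0 : ℤ) ≤ Y' := Int.natCast_nonneg _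
  by_cases h1 : 1 ≤ G n + t ∧ G n + t ≤ Y
  · rw [if_pos h1]
    by_cases h2 : G n + t ≤ Y'
    · rw [if_pos ⟨h1.1, h2⟩, if_neg (by rintro ⟨h3, _⟩; omega), sub_self, mul_zero]
    · rw [if_neg (by rintro ⟨_, h3⟩; exact h2 h3), if_pos ⟨by omega, h1.2⟩, sub_zero]
  · rw [if_neg h1, if_neg (by rintro ⟨h3, h4⟩; exact h1 ⟨h3, by omega⟩),
      if_neg (by rintro ⟨h3, h4⟩; exact h1 ⟨by omega, h4⟩), sub_self, mul_zero]

lemma TW_diff_le (w : ℕ → ℝ) (hw : ∀ n, |w n| ≤ 1) (G : ℕ → ℤ) (σ : ℤ) (hσ : σ = 1 ∨ σ = -1) (N0 g : ℕ)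
    (hg : 1 ≤ g) (hG : Gap G σ N0 g)
    (M Y Y' : ℕ) (hY : Y' ≤ Y) (f : ℤ → ℝ) (t : ℤ) (c0 : ℝ) (hf : ∀ y, |f y| ≤ c0) :
    |TW w G N0 M Y f t - TW w G N0 M Y' f t| ≤ c0 * (((Y : ℝ) - Y') / g + 1) := by
  have hc0 : 0 ≤ c0 := (abs_nonneg _).trans (hf 0)
  rw [TW_diff w G N0 M Y Y' hY]
  have hb : ∀ n ∈ (Icc N0 M).filter (fun n => (Y' : ℤ) < G n + t ∧ G n + t ≤ Y), |w n * f (G n + t)| ≤ c0 := by
    intro n _
    rw [abs_mul]
    calc |w n| * |f (G n + t)| ≤ 1 * c0 := mul_le_mul (hw n) (hf _) (abs_nonneg _) zero_le_one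
      _ = c0 := one_mul _
  refine (abs_sum_le_sum_abs _ _).trans ((sum_le_sum hb).trans ?_)
  rw [sum_const, nsmul_eq_mul, mul_comm]
  apply mul_le_mul_of_nonneg_left _ hc0
  have h1 := gap_card G σ hσ N0 g hg hG t ((Icc N0 M).filter (fun n => (Y' : ℤ) < G n + t ∧ G n + t ≤ Y)) Y' Y (by
    intro n hn
    rw [mem_filter, mem_Icc] at hn
    exact ⟨hn.1.1, hn.2.1, hn.2.2⟩) (by exact_mod_cast hY)
  simpa using h1

/-- all cutoffs -/
lemma TW_all (w : ℕ → ℝ) (hw : ∀ n, |w n| ≤ 1) (G : ℕ → ℤ) (σ : ℤ) (hσ : σ = 1 ∨ σ = -1) (N0 g : ℕ)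
    (hg : 1 ≤ g) (hG : Gap G σ N0 g)
    (M : ℕ) (f : ℤ → ℝ) (t : ℤ) (c0 γ ρ Ymin Ymax : ℝ) (hf : ∀ y, |f y| ≤ c0) (hγ : 2 ≤ γ) (hρ : 0 ≤ ρ)
    (hY1 : 1 ≤ Ymin)
    (hT : ∀ j : ℕ, Ymin ≤ gr γ j → (gr γ j : ℝ) ≤ Ymax → |TW w G N0 M (gr γ j) f t| ≤ gr γ j * ρ)
    (Y : ℕ) (hY : (Y : ℝ) ≤ Ymax) :
    |TW w G N0 M Y f t| ≤ Y * ρ + c0 * ((Y / γ ^ 2 + 1) / g + 1) + c0 * ((2 * Ymin + 2) / g + 1) := by
  have hc0 : 0 ≤ c0 := (abs_nonneg _).trans (hf 0)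
  have hgr : (0 : ℝ) < g := by exact_mod_cast hg
  have hYr : (0 : ℝ) ≤ Y := Nat.cast_nonneg _
  have hG4 : (4 : ℝ) ≤ γ ^ 2 := by nlinarith
  have p1 : 0 ≤ (Y : ℝ) * ρ := by positivity
  have p2 : 0 ≤ c0 * ((Y / γ ^ 2 + 1) / g + 1) := by positivity
  have p3 : 0 ≤ c0 * ((2 * Ymin + 2) / g + 1) := by positivity
  rcases Nat.eq_zero_or_pos Y with h0 | h0
  · rw [h0, TW_zero, abs_zero]
    rw [h0] at p1 p2
    linarith
  · obtain ⟨j, -, hj1, hj2⟩ := grid γ hγ Y h0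
    by_cases hc : Ymin ≤ gr γ j
    · have hj3 : (gr γ j : ℝ) ≤ Y := by exact_mod_cast hj1
      have h1 := hT j hc (hj3.trans hY)
      have h2 := TW_diff_le w hw G σ hσ N0 g hg hG M Y (gr γ j) hj1 f t c0 hf
      have h3 : |TW w G N0 M Y f t| ≤ |TW w G N0 M Y f t - TW w G N0 M (gr γ j) f t| + |TW w G N0 M (gr γ j) f t| := by
        have := abs_add_le (TW w G N0 M Y f t - TW w G N0 M (gr γ j) f t) (TW w G N0 M (gr γ j) f t)
        rwa [sub_add_cancel] at this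
      have h4 : (gr γ j : ℝ) * ρ ≤ Y * ρ := mul_le_mul_of_nonneg_right hj3 hρ
      have h5 : c0 * (((Y : ℝ) - gr γ j) / g + 1) ≤ c0 * ((Y / γ ^ 2 + 1) / g + 1) := by
        apply mul_le_mul_of_nonneg_left _ hc0
        have := div_le_div_of_nonneg_right hj2 hgr.le
        linarith
      linarith
    · push Not at hc
      have h2 := TW_diff_le w hw G σ hσ N0 g hg hG M Y 0 (Nat.zero_le _) f t c0 hf
      rw [TW_zero, sub_zero] at h2
      have h3 : (Y : ℝ) / γ ^ 2 ≤ Y / 2 := by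
        apply div_le_div_of_nonneg_left hYr (by norm_num)
        linarith
      have h4 : c0 * (((Y : ℝ) - (0 : ℕ)) / g + 1) ≤ c0 * ((2 * Ymin + 2) / g + 1) := by
        apply mul_le_mul_of_nonneg_left _ hc0
        have h5 : ((Y : ℝ) - (0 : ℕ)) ≤ 2 * Ymin + 2 := by
          push_cast
          linarith
        have := div_le_div_of_nonneg_right h5 hgr.le
        linarith
      linarith

/-- windows are differences of cutoffs -/
lemma window_TW (w : ℕ → ℝ) (G : ℕ → ℤ) (σ : ℤ) (hσ : σ = 1 ∨ σ = -1) (N0 g : ℕ) (hg : 1 ≤ g) (hG : Gap G σ N0 g)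
    (M : ℕ) (f : ℤ → ℝ) (t : ℤ) (n1 n2 : ℕ) (h01 : N0 ≤ n1) (h12 : n1 ≤ n2) (h2M : n2 ≤ M)
    (hv1 : 1 ≤ G n1 + t) (hv2 : 1 ≤ G n2 + t) :
    ∃ Ya Yb : ℕ, Ya ≤ Yb ∧ ((Yb : ℤ) = G n1 + t ∨ (Yb : ℤ) = G n2 + t) ∧
      ∑ n ∈ Icc n1 n2, w n * f (G n + t) = TW w G N0 M Yb f t - TW w G N0 M Ya f t := by
  have key : ∀ n ∈ Icc N0 M, (n1 ≤ n ∧ n ≤ n2 ↔ σ * G n1 ≤ σ * G n ∧ σ * G n ≤ σ * G n2) := by
    intro n hn
    rw [mem_Icc] at hn
    constructor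
    · rintro ⟨h1, h2⟩
      constructor
      · rcases h1.eq_or_lt with h | h
        · rw [h]
        · exact (gap_mono G σ N0 g hg hG n1 n h01 h).le
      · rcases h2.eq_or_lt with h | h
        · rw [h]
        · exact (gap_mono G σ N0 g hg hG n n2 hn.1 h).le
    · rintro ⟨h1, h2⟩
      constructor
      · by_contra hcon
        push Not at hcon
        have := gap_mono G σ N0 g hg hG n n1 hn.1 hcon
        linarith
      · by_contra hcon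
        push Not at hcon
        have := gap_mono G σ N0 g hg hG n2 n (by omega) hcon
        linarith
  rcases hσ with h | h
  · refine ⟨(G n1 + t - 1).toNat, (G n2 + t).toNat, ?_, Or.inr (by omega), ?_⟩
    · have h3 := (key n1 (by rw [mem_Icc]; omega)).1 ⟨le_rfl, h12⟩
      rw [h] at h3
      omega
    · rw [TW_diff]
      · apply sum_congr _ fun _ _ => rfl
        ext n
        rw [mem_filter]
        have ha : (((G n1 + t - 1).toNat : ℕ) : ℤ) = G n1 + t - 1 := Int.toNat_of_nonneg (by omega)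
        have hb : (((G n2 + t).toNat : ℕ) : ℤ) = G n2 + t := Int.toNat_of_nonneg (by omega)
        rw [ha, hb]
        constructor
        · intro hn
          rw [mem_Icc] at hn
          have hn' : n ∈ Icc N0 M := by rw [mem_Icc]; omega
          have h3 := (key n hn').1 hn
          rw [h] at h3
          exact ⟨hn', by omega, by omega⟩
        · rintro ⟨hn, h4, h5⟩
          have h3 := (key n hn).2
          rw [h] at h3
          rw [mem_Icc]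
          exact h3 ⟨by omega, by omega⟩
      · have h3 := (key n1 (by rw [mem_Icc]; omega)).1 ⟨le_rfl, h12⟩
        rw [h] at h3
        omega
  · refine ⟨(G n2 + t - 1).toNat, (G n1 + t).toNat, ?_, Or.inl (by omega), ?_⟩
    · have h3 := (key n1 (by rw [mem_Icc]; omega)).1 ⟨le_rfl, h12⟩
      rw [h] at h3
      omega
    · rw [TW_diff]
      · apply sum_congr _ fun _ _ => rfl
        ext n
        rw [mem_filter]
        have ha : (((G n2 + t - 1).toNat : ℕ) : ℤ) = G n2 + t - 1 := Int.toNat_of_nonneg (by omega)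
        have hb : (((G n1 + t).toNat : ℕ) : ℤ) = G n1 + t := Int.toNat_of_nonneg (by omega)
        rw [ha, hb]
        constructor
        · intro hn
          rw [mem_Icc] at hn
          have hn' : n ∈ Icc N0 M := by rw [mem_Icc]; omega
          have h3 := (key n hn').1 hn
          rw [h] at h3
          exact ⟨hn', by omega, by omega⟩
        · rintro ⟨hn, h4, h5⟩
          have h3 := (key n hn).2
          rw [h] at h3
          rw [mem_Icc]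
          exact h3 ⟨by omega, by omega⟩
      · have h3 := (key n1 (by rw [mem_Icc]; omega)).1 ⟨le_rfl, h12⟩
        rw [h] at h3
        omega

/-- all windows -/
lemma window_all_w (w : ℕ → ℝ) (hw : ∀ n, |w n| ≤ 1) (G : ℕ → ℤ) (σ : ℤ) (hσ : σ = 1 ∨ σ = -1) (N0 g : ℕ)
    (hg : 1 ≤ g) (hG : Gap G σ N0 g)
    (M : ℕ) (f : ℤ → ℝ) (t : ℤ) (c0 γ ρ Ymin Ymax : ℝ) (hf : ∀ y, |f y| ≤ c0) (hγ : 2 ≤ γ) (hρ : 0 ≤ ρ)
    (hY1 : 1 ≤ Ymin)
    (hT : ∀ j : ℕ, Ymin ≤ gr γ j → (gr γ j : ℝ) ≤ Ymax → |TW w G N0 M (gr γ j) f t| ≤ gr γ j * ρ)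
    (n1 n2 : ℕ) (h01 : N0 ≤ n1) (h12 : n1 ≤ n2) (h2M : n2 ≤ M) (hv1 : 1 ≤ G n1 + t) (hv2 : 1 ≤ G n2 + t)
    (V : ℝ) (hV1 : ((G n1 + t : ℤ) : ℝ) ≤ V) (hV2 : ((G n2 + t : ℤ) : ℝ) ≤ V) (hVmax : V ≤ Ymax) :
    |∑ n ∈ Icc n1 n2, w n * f (G n + t)| ≤
      2 * (V * ρ + c0 * ((V / γ ^ 2 + 1) / g + 1) + c0 * ((2 * Ymin + 2) / g + 1)) := by
  have hc0 : 0 ≤ c0 := (abs_nonneg _).trans (hf 0)
  have hgr : (0 : ℝ) < g := by exact_mod_cast hg
  obtain ⟨Ya, Yb, hab, hYb, hsum⟩ := window_TW w G σ hσ N0 g hg hG M f t n1 n2 h01 h12 h2M hv1 hv2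
  rw [hsum]
  have hYbV : (Yb : ℝ) ≤ V := by
    rcases hYb with h | h
    · have : (Yb : ℝ) = ((G n1 + t : ℤ) : ℝ) := by rw [← h]; simp
      rw [this]; exact hV1
    · have : (Yb : ℝ) = ((G n2 + t : ℤ) : ℝ) := by rw [← h]; simp
      rw [this]; exact hV2
  have hYaV : (Ya : ℝ) ≤ V := le_trans (by exact_mod_cast hab) hYbV
  have hone : ∀ Y : ℕ, (Y : ℝ) ≤ V → |TW w G N0 M Y f t| ≤
      V * ρ + c0 * ((V / γ ^ 2 + 1) / g + 1) + c0 * ((2 * Ymin + 2) / g + 1) := by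
    intro Y hY
    have h1 := TW_all w hw G σ hσ N0 g hg hG M f t c0 γ ρ Ymin Ymax hf hγ hρ hY1 hT Y (hY.trans hVmax)
    have h2 : (Y : ℝ) * ρ ≤ V * ρ := mul_le_mul_of_nonneg_right hY hρ
    have h3 : c0 * ((Y / γ ^ 2 + 1) / g + 1) ≤ c0 * ((V / γ ^ 2 + 1) / g + 1) := by
      apply mul_le_mul_of_nonneg_left _ hc0
      have h4 : (Y : ℝ) / γ ^ 2 ≤ V / γ ^ 2 := div_le_div_of_nonneg_right hY (by positivity)
      have h5 : ((Y : ℝ) / γ ^ 2 + 1) / g ≤ (V / γ ^ 2 + 1) / g := div_le_div_of_nonneg_right (by linarith) hgr.le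
      linarith
    linarith
  refine (abs_sub _ _).trans ?_
  have h1 := hone Yb hYbV
  have h2 := hone Ya hYaV
  linarith

end Pool.Agent.Q156.AW
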