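import Pool.Agent.TH204.WR.W9
import Pool.Agent.Q156.AW.A4

/-!
All windows of integers for one shift `t`, with weights.
-/

set_option autoImplicit false

namespace Pool.Agent.Q156.AW

open Finset Polynomial
open Pool.Agent.TH892.SW (gr)
open Pool.Agent.TH204.WR

/-- the weighted sum in a window -/
lemma G_bound_w (w : ℕ → ℝ) (hw : ∀ n, |w n| ≤ 1) (k C B c1 e : ℕ) (G : ℕ → ℤ) (σ : ℤ) (hσ : σ = 1 ∨ σ = -1)
    (N0 M x : ℕ) (f : ℤ → ℝ) (t : ℤ) (S L H : ℝ)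
    (hL : 100 ≤ L) (hS1 : 1 ≤ S) (hSx : S ^ (k + 1) = x) (hN0 : S / L ^ c1 ≤ N0) (hN01 : 1 ≤ N0)
    (hG : Gap G σ N0 (N0 ^ k)) (hff : ∀ y, |f y| ≤ 3 * L) (hHS : H ≤ S * L ^ (C + 1))
    (hHB : L ^ (B + c1 * k + e + 2) ≤ H)
    (hT : ∀ j : ℕ, S ^ k * L ^ B ≤ gr (L ^ (C + c1 * k + e + 2)) j →
      (gr (L ^ (C + c1 * k + e + 2)) j : ℝ) ≤ x * L ^ (2 * C + 1) →
      |TW w G N0 M (gr (L ^ (C + c1 * k + e + 2)) j) f t| ≤
        gr (L ^ (C + c1 * k + e + 2)) j * (1 / (S ^ k * L ^ (C + e + 1))))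
    (n1 n2 : ℕ) (h01 : N0 ≤ n1) (h12 : n1 ≤ n2) (h2M : n2 ≤ M) (hv1 : 1 ≤ G n1 + t) (hv2 : 1 ≤ G n2 + t)
    (hV1 : ((G n1 + t : ℤ) : ℝ) ≤ H * (S ^ k * L ^ C)) (hV2 : ((G n2 + t : ℤ) : ℝ) ≤ H * (S ^ k * L ^ C)) :
    |∑ n ∈ Icc n1 n2, w n * f (G n + t)| ≤ H / L ^ e := by
  have hL0 : 0 < L := by linarith
  have hL1 : 1 ≤ L := by linarith
  have hLp0 : ∀ n : ℕ, 0 < L ^ n := fun n => by positivity
  have hLp : ∀ n : ℕ, 1 ≤ L ^ n := fun n => one_le_pow₀ hL1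
  have hS0 : 0 < S := by linarith
  have hSk0 : 0 < S ^ k := by positivity
  have hSk1 : 1 ≤ S ^ k := one_le_pow₀ hS1
  have hH1 : 1 ≤ H := (hLp _).trans hHB
  have hH0 : 0 < H := by linarith
  have hg1 : 1 ≤ N0 ^ k := Nat.one_le_pow _ _ hN01
  have hgr : (1 : ℝ) ≤ ((N0 ^ k : ℕ) : ℝ) := by exact_mod_cast hg1
  have hgS : S ^ k / L ^ (c1 * k) ≤ ((N0 ^ k : ℕ) : ℝ) := by
    push_cast
    calc S ^ k / L ^ (c1 * k) = (S / L ^ c1) ^ k := by rw [div_pow, ← pow_mul]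
      _ ≤ (N0 : ℝ) ^ k := pow_le_pow_left₀ (by positivity) hN0 k
  have hγ : 2 ≤ L ^ (C + c1 * k + e + 2) := by
    have : L ≤ L ^ (C + c1 * k + e + 2) := le_self_pow₀ hL1 (by omega)
    linarith
  have hVmax : H * (S ^ k * L ^ C) ≤ x * L ^ (2 * C + 1) := by
    calc H * (S ^ k * L ^ C) ≤ (S * L ^ (C + 1)) * (S ^ k * L ^ C) := by gcongr
      _ = S ^ (k + 1) * L ^ (2 * C + 1) := by ring
      _ = x * L ^ (2 * C + 1) := by rw [hSx]
  have h1 := window_all_w w hw G σ hσ N0 (N0 ^ k) hg1 hG M f t (3 * L) (L ^ (C + c1 * k + e + 2))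
    (1 / (S ^ k * L ^ (C + e + 1))) (S ^ k * L ^ B) (x * L ^ (2 * C + 1)) hff hγ (by positivity)
    (one_le_mul_of_one_le_of_one_le hSk1 (hLp B)) hT n1 n2 h01 h12 h2M hv1 hv2 (H * (S ^ k * L ^ C)) hV1 hV2 hVmax
  refine h1.trans ?_
  obtain ⟨g, hg⟩ : ∃ g : ℝ, g = ((N0 ^ k : ℕ) : ℝ) := ⟨_, rfl⟩
  rw [← hg] at hgr hgS ⊢
  have hg0 : 0 < g := by linarith
  have hginv : 1 / g ≤ L ^ (c1 * k) / S ^ k := by
    rw [div_le_div_iff₀ hg0 hSk0, one_mul]
    rw [div_le_iff₀ (hLp0 _)] at hgS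
    linarith
  have t1 : H * (S ^ k * L ^ C) * (1 / (S ^ k * L ^ (C + e + 1))) = H / L ^ (e + 1) := by
    rw [show C + e + 1 = C + (e + 1) by ring, pow_add]
    have := (hLp0 C).ne'
    field_simp
  have t2 : 3 * L * ((H * (S ^ k * L ^ C) / (L ^ (C + c1 * k + e + 2)) ^ 2 + 1) / g + 1) ≤ 3 * (H / L ^ (e + 1)) + 6 * L := by
    have e1 : 3 * L * ((H * (S ^ k * L ^ C) / (L ^ (C + c1 * k + e + 2)) ^ 2 + 1) / g + 1) =
        3 * L * (H * (S ^ k * L ^ C) / (L ^ (C + c1 * k + e + 2)) ^ 2 * (1 / g)) + 3 * L * (1 / g) + 3 * L := by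
      field_simp
    rw [e1]
    have h2 : H * (S ^ k * L ^ C) / (L ^ (C + c1 * k + e + 2)) ^ 2 * (1 / g) ≤ H / L ^ (e + 2) := by
      calc H * (S ^ k * L ^ C) / (L ^ (C + c1 * k + e + 2)) ^ 2 * (1 / g)
          ≤ H * (S ^ k * L ^ C) / (L ^ (C + c1 * k + e + 2)) ^ 2 * (L ^ (c1 * k) / S ^ k) := by gcongr
        _ = H * (L ^ (C + c1 * k) / (L ^ (C + c1 * k + e + 2)) ^ 2) := by rw [pow_add L C]; field_simp
        _ = H * (1 / (L ^ (C + c1 * k + e + 2) * L ^ (e + 2))) := by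
            congr 1
            rw [show C + c1 * k + e + 2 = (C + c1 * k) + (e + 2) by ring, pow_add L (C + c1 * k)]
            have := (hLp0 (C + c1 * k)).ne'
            field_simp
        _ ≤ H * (1 / L ^ (e + 2)) := by
            apply mul_le_mul_of_nonneg_left _ hH0.le
            apply one_div_le_one_div_of_le (hLp0 _)
            exact le_mul_of_one_le_left (hLp0 _).le (hLp _)
        _ = H / L ^ (e + 2) := by ring
    have h3 : 3 * L * (H / L ^ (e + 2)) = 3 * (H / L ^ (e + 1)) := by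
      rw [show e + 2 = (e + 1) + 1 by ring, pow_succ L (e + 1)]
      have := (hLp0 (e + 1)).ne'
      field_simp
    have h4 : 1 / g ≤ 1 := by rw [div_le_one hg0]; exact hgr
    have h5 := mul_le_mul_of_nonneg_left h2 (show 0 ≤ 3 * L by positivity)
    have h6 := mul_le_mul_of_nonneg_left h4 (show 0 ≤ 3 * L by positivity)
    linarith
  have t3 : 3 * L * ((2 * (S ^ k * L ^ B) + 2) / g + 1) ≤ 15 * (H / L ^ (e + 1)) := by
    have h2 : (2 * (S ^ k * L ^ B) + 2) / g ≤ 4 * L ^ (B + c1 * k) := by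
      have h3 : 1 ≤ S ^ k * L ^ B := one_le_mul_of_one_le_of_one_le hSk1 (hLp B)
      calc (2 * (S ^ k * L ^ B) + 2) / g = (2 * (S ^ k * L ^ B) + 2) * (1 / g) := by ring
        _ ≤ (4 * (S ^ k * L ^ B)) * (L ^ (c1 * k) / S ^ k) := by
            apply mul_le_mul (by linarith) hginv (by positivity) (by positivity)
        _ = 4 * L ^ (B + c1 * k) := by rw [pow_add]; field_simp
    have h3 : L * L ^ (B + c1 * k) ≤ H / L ^ (e + 1) := by
      rw [le_div_iff₀ (hLp0 _)]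
      calc L * L ^ (B + c1 * k) * L ^ (e + 1) = L ^ (B + c1 * k + e + 2) := by ring
        _ ≤ H := hHB
    have h4 : L ≤ L * L ^ (B + c1 * k) := le_mul_of_one_le_right hL0.le (hLp _)
    have h5 := mul_le_mul_of_nonneg_left h2 (show 0 ≤ 3 * L by positivity)
    have h6 : 3 * L * (4 * L ^ (B + c1 * k)) = 12 * (L * L ^ (B + c1 * k)) := by ring
    have h7 : 3 * L * ((2 * (S ^ k * L ^ B) + 2) / g + 1) = 3 * L * ((2 * (S ^ k * L ^ B) + 2) / g) + 3 * L := by ring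
    rw [h7]
    linarith
  have t4 : 6 * L ≤ 6 * (H / L ^ (e + 1)) := by
    have h3 : L ≤ H / L ^ (e + 1) := by
      rw [le_div_iff₀ (hLp0 _)]
      calc L * L ^ (e + 1) = L ^ (e + 2) := by ring
        _ ≤ L ^ (B + c1 * k + e + 2) := pow_le_pow_right₀ hL1 (by omega)
        _ ≤ H := hHB
    linarith
  have t5 : 50 * (H / L ^ (e + 1)) ≤ H / L ^ e := by
    rw [pow_succ L e]
    have h3 : H / L ^ e = L * (H / (L ^ e * L)) := by
      have := (hLp0 e).ne'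
      field_simp
    rw [h3]
    apply mul_le_mul_of_nonneg_right (by linarith) (by positivity)
  rw [t1]
  linarith


lemma part_pos' (φ : ℤ → ℝ) (a b : ℤ) (N0 : ℕ) (hN0 : 1 ≤ N0) :
    ∑ m ∈ (Ioc a b).filter (fun m => (N0 : ℤ) ≤ m), φ m =
      ∑ n ∈ Icc (max (a + 1) N0).toNat b.toNat, φ (n : ℤ) := by
  refine sum_nbij' (fun m => m.toNat) (fun n => (n : ℤ)) ?_ ?_ ?_ ?_ ?_
  · intro m hm
    rw [mem_filter, mem_Ioc] at hm
    rw [mem_Icc]
    omega
  · intro n hn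
    rw [mem_Icc] at hn
    rw [mem_filter, mem_Ioc]
    omega
  · intro m hm
    rw [mem_filter, mem_Ioc] at hm
    omega
  · intro n hn
    omega
  · intro m hm
    rw [mem_filter, mem_Ioc] at hm
    rw [Int.toNat_of_nonneg (by omega)]

lemma part_neg' (φ : ℤ → ℝ) (a b : ℤ) (N0 : ℕ) (hN0 : 1 ≤ N0) :
    ∑ m ∈ (Ioc a b).filter (fun m => m ≤ -(N0 : ℤ)), φ m =
      ∑ n ∈ Icc (max (-b) N0).toNat (-a - 1).toNat, φ (-(n : ℤ)) := by
  refine sum_nbij' (fun m => (-m).toNat) (fun n => -(n : ℤ)) ?_ ?_ ?_ ?_ ?_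
  · intro m hm
    rw [mem_filter, mem_Ioc] at hm
    rw [mem_Icc]
    omega
  · intro n hn
    rw [mem_Icc] at hn
    rw [mem_filter, mem_Ioc]
    omega
  · intro m hm
    rw [mem_filter, mem_Ioc] at hm
    omega
  · intro n hn
    omega
  · intro m hm
    rw [mem_filter, mem_Ioc] at hm
    rw [Int.toNat_of_nonneg (by omega), neg_neg]

/-- **All windows for one shift.** -/
theorem window_tw (k C U B c1 e nP A : ℕ) (F : ℤ[X]) (σ₁ σ₂ : ℤ) (N0 M x : ℕ) (t : ℤ) (S L : ℝ)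
    (f : ℤ → ℝ) (w : ℤ → ℝ) (hw : ∀ m, |w m| ≤ 1)
    (hk : 1 ≤ k) (hc1 : c1 = C + U + e + 4)
    (hgr1 : ∀ m : ℤ, (nP : ℤ) ≤ |m| → |m| ^ (k + 1) ≤ 2 * |F.eval m|)
    (hgr2 : ∀ m : ℤ, |F.eval m| ≤ A * (|m| ^ (k + 1) + 1))
    (hσ₁ : σ₁ = 1 ∨ σ₁ = -1) (hσ₂ : σ₂ = 1 ∨ σ₂ = -1)
    (hG1 : Gap (fun n => F.eval (n : ℤ)) σ₁ N0 (N0 ^ k))
    (hG2 : Gap (fun n => (F.comp (-X)).eval (n : ℤ)) σ₂ N0 (N0 ^ k))
    (hN0 : N0 = ⌈S / L ^ c1⌉₊) (hM : M = ⌊S * L ^ (2 * C + 2)⌋₊)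
    (hSx : S ^ (k + 1) = x) (hL : 100 + (4 : ℝ) ^ (k + 2) + A * 2 ^ (k + 4) + 4 * nP ≤ L)
    (hLS : L ^ (c1 + 2 * C + 4) ≤ S) (hff : ∀ y, |f y| ≤ 3 * L)
    (hT1 : ∀ j : ℕ, S ^ k * L ^ B ≤ gr (L ^ (C + c1 * k + e + 2)) j →
      (gr (L ^ (C + c1 * k + e + 2)) j : ℝ) ≤ x * L ^ (2 * C + 1) →
      |TW (fun n : ℕ => w (n : ℤ)) (fun n : ℕ => F.eval (n : ℤ)) N0 M (gr (L ^ (C + c1 * k + e + 2)) j) f t| ≤
        gr (L ^ (C + c1 * k + e + 2)) j * (1 / (S ^ k * L ^ (C + e + 1))))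
    (hT2 : ∀ j : ℕ, S ^ k * L ^ B ≤ gr (L ^ (C + c1 * k + e + 2)) j →
      (gr (L ^ (C + c1 * k + e + 2)) j : ℝ) ≤ x * L ^ (2 * C + 1) →
      |TW (fun n : ℕ => w (-(n : ℤ))) (fun n : ℕ => (F.comp (-X)).eval (n : ℤ)) N0 M
        (gr (L ^ (C + c1 * k + e + 2)) j) f t| ≤
        gr (L ^ (C + c1 * k + e + 2)) j * (1 / (S ^ k * L ^ (C + e + 1))))
    (ht1 : |t| ≤ x) (ht2 : (x : ℝ) / L ^ (U + 2) < |(t : ℝ)|)
    (a b' : ℤ) (hHB : L ^ (B + c1 * k + e + 2) ≤ (b' : ℝ) - a)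
    (hv : ∀ m ∈ Ioc a b', 2 ≤ F.eval m + t ∧ ((F.eval m + t : ℤ) : ℝ) ≤ ((b' : ℝ) - a) * (S ^ k * L ^ C)) :
    |∑ m ∈ Ioc a b', w m * f (F.eval m + t)| ≤ 3 * (((b' : ℝ) - a) / L ^ e) := by
  classical
  obtain ⟨H, hHd⟩ : ∃ H : ℝ, H = (b' : ℝ) - a := ⟨_, rfl⟩
  rw [← hHd] at hHB hv ⊢
  have hA0 : (0 : ℝ) ≤ A * 2 ^ (k + 4) := by positivity
  have hnP0 : (0 : ℝ) ≤ nP := Nat.cast_nonneg _
  have h4k : (0 : ℝ) < 4 ^ (k + 2) := by positivity
  have hL100 : 100 ≤ L := by linarith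
  have hL0 : 0 < L := by linarith
  have hL1 : 1 ≤ L := by linarith
  have hLp0 : ∀ n : ℕ, 0 < L ^ n := fun n => by positivity
  have hLp : ∀ n : ℕ, 1 ≤ L ^ n := fun n => one_le_pow₀ hL1
  have hLL : ∀ {i j : ℕ}, i ≤ j → L ^ i ≤ L ^ j := fun h => pow_le_pow_right₀ hL1 h
  have hLSS : L ≤ S := by
    have : L ≤ L ^ (c1 + 2 * C + 4) := le_self_pow₀ hL1 (by omega)
    linarith
  have hS1 : 1 ≤ S := by linarith
  have hS0 : 0 < S := by linarith
  have hSk0 : 0 < S ^ k := by positivity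
  have hx0 : (0 : ℝ) < x := by rw [← hSx]; positivity
  have hH1 : 1 ≤ H := (hLp _).trans hHB
  have hHL : L ^ 2 ≤ H := (hLL (by omega)).trans hHB
  have hH0 : 0 < H := by linarith
  have hN0r : S / L ^ c1 ≤ N0 := by rw [hN0]; exact Nat.le_ceil _
  have hSLc : 1 ≤ S / L ^ c1 := by
    rw [one_le_div (hLp0 _)]
    exact (hLL (by omega)).trans hLS
  have hN0r2 : (N0 : ℝ) ≤ 2 * (S / L ^ c1) := by
    have := Nat.ceil_lt_add_one (show 0 ≤ S / L ^ c1 by positivity)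
    rw [← hN0] at this
    linarith
  have hN01 : 1 ≤ N0 := by
    have : (1 : ℝ) ≤ N0 := by linarith
    exact_mod_cast this
  -- sizes
  obtain ⟨hHS, hmS⟩ := size_window k C hk F nP hgr1 x S L hSx hS1 (by linarith) (by linarith) t ht1 a b'
    (by rw [← hHd]; have : L ≤ L ^ 2 := le_self_pow₀ hL1 (by norm_num); linarith) (by rw [← hHd]; exact hv)
  rw [← hHd] at hHS
  have hmM : ∀ m ∈ Ioc a b', m.natAbs ≤ M := by
    intro m hm
    rw [hM]
    apply Nat.le_floor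
    have h := hmS m hm
    rw [Int.abs_eq_natAbs, Int.cast_natCast] at h
    exact h
  set φ : ℤ → ℝ := fun m => w m * f (F.eval m + t) with hφ
  show |∑ m ∈ Ioc a b', φ m| ≤ 3 * (H / L ^ e)
  -- the three parts
  set Ap := (Ioc a b').filter (fun m => (N0 : ℤ) ≤ m) with hAp
  set Am := (Ioc a b').filter (fun m => m ≤ -(N0 : ℤ)) with hAm
  set Az := (Ioc a b').filter (fun m => ¬ (N0 : ℤ) ≤ m ∧ ¬ m ≤ -(N0 : ℤ)) with hAz
  have hsplit : ∀ ψ : ℤ → ℝ, ∑ m ∈ Ioc a b', ψ m = ∑ m ∈ Ap, ψ m + (∑ m ∈ Am, ψ m + ∑ m ∈ Az, ψ m) := by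
    intro ψ
    rw [← sum_filter_add_sum_filter_not (Ioc a b') (fun m => (N0 : ℤ) ≤ m)]
    congr 1
    rw [← sum_filter_add_sum_filter_not ((Ioc a b').filter (fun m => ¬ (N0 : ℤ) ≤ m)) (fun m => m ≤ -(N0 : ℤ)),
      filter_filter, filter_filter]
    congr 1
    apply sum_congr _ fun _ _ => rfl
    apply filter_congr
    intro m _
    constructor
    · rintro ⟨_, h⟩; exact h
    · intro h; exact ⟨by omega, h⟩
  have hP : |∑ m ∈ Ap, φ m| ≤ H / L ^ e := by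
    rw [hAp, part_pos' φ a b' N0 hN01]
    rcases Nat.lt_or_ge b'.toNat (max (a + 1) N0).toNat with hlt | hle
    · rw [Icc_eq_empty (by omega), sum_empty, abs_zero]
      positivity
    · have hi : ∀ i ∈ Icc (max (a + 1) N0).toNat b'.toNat, (i : ℤ) ∈ Ioc a b' := by
        intro i hi
        rw [mem_Icc] at hi
        rw [mem_Ioc]
        omega
      have h1 := hi _ (mem_Icc.2 ⟨le_rfl, hle⟩)
      have h2 := hi _ (mem_Icc.2 ⟨hle, le_rfl⟩)
      have h2M := hmM _ h2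
      rw [Int.natAbs_natCast] at h2M
      have h3 := hv _ h1
      have h4 := hv _ h2
      exact G_bound_w (fun n => w (n : ℤ)) (fun n => hw _) k C B c1 e (fun n => F.eval (n : ℤ)) σ₁ hσ₁ N0 M x f t S L H
        hL100 hS1 hSx hN0r hN01 hG1 hff hHS hHB hT1 _ _ (by omega) hle h2M
        (by show 1 ≤ F.eval _ + t; omega) (by show 1 ≤ F.eval _ + t; omega) h3.2 h4.2
  have hMn : |∑ m ∈ Am, φ m| ≤ H / L ^ e := by
    rw [hAm, part_neg' φ a b' N0 hN01]
    rcases Nat.lt_or_ge (-a - 1).toNat (max (-b') N0).toNat with hlt | hle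
    · rw [Icc_eq_empty (by omega), sum_empty, abs_zero]
      positivity
    · have hi : ∀ i ∈ Icc (max (-b') N0).toNat (-a - 1).toNat, -(i : ℤ) ∈ Ioc a b' := by
        intro i hi
        rw [mem_Icc] at hi
        rw [mem_Ioc]
        omega
      have hcomp : ∀ i : ℕ, (F.comp (-X)).eval (i : ℤ) = F.eval (-(i : ℤ)) := by
        intro i
        rw [eval_comp, eval_neg, eval_X]
      have h1 := hi _ (mem_Icc.2 ⟨le_rfl, hle⟩)
      have h2 := hi _ (mem_Icc.2 ⟨hle, le_rfl⟩)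
      have h2M := hmM _ h2
      rw [Int.natAbs_neg, Int.natAbs_natCast] at h2M
      have h3 := hv _ h1
      have h4 := hv _ h2
      rw [← hcomp] at h3 h4
      have h5 := G_bound_w (fun n => w (-(n : ℤ))) (fun n => hw _) k C B c1 e (fun n => (F.comp (-X)).eval (n : ℤ)) σ₂ hσ₂
        N0 M x f t S L H
        hL100 hS1 hSx hN0r hN01 hG2 hff hHS hHB hT2 _ _ (by omega) hle h2M
        (by show 1 ≤ (F.comp (-X)).eval _ + t; omega) (by show 1 ≤ (F.comp (-X)).eval _ + t; omega) h3.2 h4.2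
      have h6 : ∑ n ∈ Icc (max (-b') N0).toNat (-a - 1).toNat, w (-(n : ℤ)) * f ((F.comp (-X)).eval (n : ℤ) + t) =
          ∑ n ∈ Icc (max (-b') N0).toNat (-a - 1).toNat, φ (-(n : ℤ)) := by
        refine sum_congr rfl fun n _ => ?_
        rw [hcomp]
      rw [← h6]
      exact h5
  have hZr : |∑ m ∈ Az, φ m| ≤ H / L ^ e := by
    rcases Az.eq_empty_or_nonempty with h0 | ⟨m0, hm0⟩
    · rw [h0, sum_empty, abs_zero]; positivity
    · have hm0' := mem_filter.1 hm0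
      have hv0 := hv m0 hm0'.1
      have habs0 : |m0| ≤ N0 := by rw [abs_le]; omega
      -- `F m0` is small
      have hF0 : ((|F.eval m0| : ℤ) : ℝ) ≤ (x : ℝ) / (2 * L ^ (U + 2)) := by
        have h1 := hgr2 m0
        have h2 : ((|F.eval m0| : ℤ) : ℝ) ≤ A * ((N0 : ℝ) ^ (k + 1) + 1) := by
          have h3 : |m0| ^ (k + 1) ≤ (N0 : ℤ) ^ (k + 1) := pow_le_pow_left₀ (abs_nonneg _) habs0 _
          have h4 : |F.eval m0| ≤ A * ((N0 : ℤ) ^ (k + 1) + 1) := by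
            refine h1.trans ?_
            apply mul_le_mul_of_nonneg_left _ (Int.natCast_nonneg _)
            linarith
          exact_mod_cast h4
        refine h2.trans ?_
        have h3 : (1 : ℝ) ≤ (N0 : ℝ) ^ (k + 1) := one_le_pow₀ (by exact_mod_cast hN01)
        have h4 : (N0 : ℝ) ^ (k + 1) ≤ 2 ^ (k + 1) * (x / L ^ c1) := by
          calc (N0 : ℝ) ^ (k + 1) ≤ (2 * (S / L ^ c1)) ^ (k + 1) := pow_le_pow_left₀ (by positivity) hN0r2 _
            _ = 2 ^ (k + 1) * (S ^ (k + 1) / (L ^ c1) ^ (k + 1)) := by rw [mul_pow, div_pow]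
            _ ≤ 2 ^ (k + 1) * (S ^ (k + 1) / L ^ c1) := by
                apply mul_le_mul_of_nonneg_left _ (by positivity)
                apply div_le_div_of_nonneg_left (by positivity) (hLp0 _)
                exact le_self_pow₀ (hLp _) (by omega)
            _ = _ := by rw [hSx]
        calc (A : ℝ) * ((N0 : ℝ) ^ (k + 1) + 1) ≤ A * (2 * (2 ^ (k + 1) * (x / L ^ c1))) := by
              apply mul_le_mul_of_nonneg_left _ (Nat.cast_nonneg _)
              linarith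
          _ = (A * 2 ^ (k + 4)) * (x / L ^ c1) * (1 / 4) := by
              rw [show k + 4 = (k + 1) + 3 by ring, pow_add (2 : ℝ) (k + 1) 3]
              ring
          _ ≤ L * (x / L ^ c1) * (1 / 4) := by gcongr; linarith
          _ ≤ L * (x / L ^ (U + 3)) * (1 / 4) := by
              gcongr 2
              · apply div_le_div_of_nonneg_left hx0.le (hLp0 _)
                exact hLL (by omega)
          _ = x / (4 * L ^ (U + 2)) := by
              rw [pow_succ L (U + 2)]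
              have := (hLp0 (U + 2)).ne'
              field_simp
          _ ≤ x / (2 * L ^ (U + 2)) := by
              apply div_le_div_of_nonneg_left hx0.le (by positivity)
              have := hLp0 (U + 2)
              linarith
      have hv0r : (2 : ℝ) ≤ ((F.eval m0 + t : ℤ) : ℝ) := by exact_mod_cast hv0.1
      have hF0' : ((F.eval m0 : ℤ) : ℝ) ≤ x / (2 * L ^ (U + 2)) := by
        refine le_trans ?_ hF0
        push_cast
        exact le_abs_self _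
      have hF0'' : -(x / (2 * L ^ (U + 2))) ≤ ((F.eval m0 : ℤ) : ℝ) := by
        have h1 := neg_abs_le ((F.eval m0 : ℤ) : ℝ)
        push_cast at hF0
        linarith
      have hxx : x / L ^ (U + 2) = x / (2 * L ^ (U + 2)) + x / (2 * L ^ (U + 2)) := by
        have := (hLp0 (U + 2)).ne'
        field_simp
        norm_num
      have hxp : 0 < x / (2 * L ^ (U + 2)) := by positivity
      push_cast at hv0r
      have ht0 : (x : ℝ) / L ^ (U + 2) < (t : ℝ) := by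
        rcases le_or_gt 0 (t : ℝ) with hc | hc
        · rwa [abs_of_nonneg hc] at ht2
        · rw [abs_of_neg hc] at ht2
          linarith
      have hSH : S ≤ 2 * H * L ^ (C + U + 2) := by
        have h1 : x / (2 * L ^ (U + 2)) ≤ H * (S ^ k * L ^ C) := by
          have h2 := hv0.2
          push_cast at h2
          linarith
        rw [div_le_iff₀ (by positivity), ← hSx, pow_succ] at h1
        have h2 : S ^ k * S ≤ S ^ k * (2 * H * L ^ (C + U + 2)) := by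
          calc S ^ k * S ≤ H * (S ^ k * L ^ C) * (2 * L ^ (U + 2)) := h1
            _ = _ := by ring
        exact le_of_mul_le_mul_left h2 hSk0
      have hcard : (#Az : ℝ) ≤ 2 * N0 := by
        have h1 : Az ⊆ Ioo (-(N0 : ℤ)) N0 := by
          intro m hm
          rw [hAz, mem_filter] at hm
          rw [mem_Ioo]
          omega
        have h2 := card_le_card h1
        rw [Int.card_Ioo] at h2
        exact_mod_cast (by omega : #Az ≤ 2 * N0)
      have hterm : ∀ m ∈ Az, |φ m| ≤ 3 * L := by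
        intro m hm
        simp only [hφ]
        rw [abs_mul]
        calc |w m| * |f (F.eval m + t)| ≤ 1 * (3 * L) := mul_le_mul (hw m) (hff _) (abs_nonneg _) zero_le_one
          _ = 3 * L := one_mul _
      calc |∑ m ∈ Az, φ m| ≤ ∑ m ∈ Az, |φ m| := abs_sum_le_sum_abs _ _
        _ ≤ ∑ m ∈ Az, 3 * L := sum_le_sum hterm
        _ = #Az * (3 * L) := by rw [sum_const, nsmul_eq_mul]
        _ ≤ (2 * (2 * (S / L ^ c1))) * (3 * L) := by
            apply mul_le_mul_of_nonneg_right _ (by positivity)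
            linarith
        _ ≤ (2 * (2 * ((2 * H * L ^ (C + U + 2)) / L ^ c1))) * (3 * L) := by gcongr
        _ = 24 * (H * L ^ (C + U + 3) / L ^ c1) := by ring
        _ = 24 / L * (H / L ^ e) := by
            rw [hc1, show C + U + e + 4 = (C + U + 3) + (e + 1) by ring, pow_add L (C + U + 3) (e + 1), pow_succ L e]
            have := (hLp0 (C + U + 3)).ne'
            have := (hLp0 e).ne'
            field_simp
        _ ≤ 1 * (H / L ^ e) := by
            apply mul_le_mul_of_nonneg_right _ (by positivity)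
            rw [div_le_one hL0]; linarith
        _ = _ := one_mul _
  -- the total
  rw [hsplit]
  have h1 := abs_add_le (∑ m ∈ Ap, φ m) (∑ m ∈ Am, φ m + ∑ m ∈ Az, φ m)
  have h2 := abs_add_le (∑ m ∈ Am, φ m) (∑ m ∈ Az, φ m)
  linarith

end Pool.Agent.Q156.AW
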