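import Pool.Agent.TH204.WR.W11
import Pool.Agent.Q156.AW.A3
import Pool.Agent.Q156.AW.A5

/-!
All windows, for all but few shifts `t`, with arbitrary weights.
-/

set_option autoImplicit false

namespace Pool.Agent.Q156.AW

open Finset Filter Topology Polynomial
open Pool.Agent.TH892.SW (gr)
open Pool.Agent.TH204.WR

open Classical in
/-- the exceptional set for the grid -/
lemma bad_grid_w (x g U C' B U1 N0 M : ℕ) (w : ℕ → ℝ) (G : ℕ → ℤ) (f : ℤ → ℝ) (L R : ℝ) (hL : 10000 ≤ L) (hR : 0 < R)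
    (hTX : ∀ Y : ℕ, R * L ^ B ≤ Y → (Y : ℝ) ≤ x * L ^ C' →
      (((Icc (-(x : ℤ)) x).filter (fun t : ℤ => (Y : ℝ) / (R * L ^ U1) < |TW w G N0 M Y f t|)).card : ℝ) ≤
        x / L ^ (U + 2 * g + 4))
    (hX2 : x * L ^ C' + 1 ≤ (x : ℝ) ^ 2) (hX0 : (0 : ℝ) < x) (hLX : L = Real.log x) :
    ∃ Bt : Finset ℤ, Bt ⊆ Icc (-(x : ℤ)) x ∧ (#Bt : ℝ) ≤ x / L ^ (U + 2) ∧ ∀ t ∈ Icc (-(x : ℤ)) x, t ∉ Bt →
      ∀ j : ℕ, R * L ^ B ≤ gr (L ^ g) j → (gr (L ^ g) j : ℝ) ≤ x * L ^ C' →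
        |TW w G N0 M (gr (L ^ g) j) f t| ≤ gr (L ^ g) j * (1 / (R * L ^ U1)) := by
  have hL0 : 0 < L := by linarith
  have hL1 : 1 ≤ L := by linarith
  have hLp0 : ∀ n : ℕ, 0 < L ^ n := fun n => by positivity
  obtain ⟨J, hJ⟩ : ∃ J : ℕ, J = ⌊2 * (L ^ g) ^ 2 * L⌋₊ := ⟨_, rfl⟩
  obtain ⟨T0, hT0⟩ : ∃ T0, T0 = (range (J + 1)).filter (fun j : ℕ =>
    R * L ^ B ≤ gr (L ^ g) j ∧ (gr (L ^ g) j : ℝ) ≤ x * L ^ C') := ⟨_, rfl⟩
  refine ⟨T0.biUnion (fun j => (Icc (-(x : ℤ)) x).filter (fun t : ℤ => ((gr (L ^ g) j : ℕ) : ℝ) / (R * L ^ U1) <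
      |TW w G N0 M (gr (L ^ g) j) f t|)), ?_, ?_, ?_⟩
  · exact biUnion_subset.2 fun p _ => filter_subset _ _
  · have h2 : (#T0 : ℝ) ≤ 2 * (L ^ g) ^ 2 * L + 1 := by
      have h3 : #T0 ≤ J + 1 := by
        rw [hT0]
        refine (card_filter_le _ _).trans ?_
        rw [card_range]
      calc (#T0 : ℝ) ≤ (J : ℝ) + 1 := by exact_mod_cast h3
        _ ≤ _ := by
            have : (J : ℝ) ≤ 2 * (L ^ g) ^ 2 * L := by rw [hJ]; exact Nat.floor_le (by positivity)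
            linarith
    have h1 : (#(T0.biUnion (fun j => (Icc (-(x : ℤ)) x).filter (fun t : ℤ => ((gr (L ^ g) j : ℕ) : ℝ) / (R * L ^ U1) <
      |TW w G N0 M (gr (L ^ g) j) f t|))) : ℝ) ≤
        (#T0 : ℝ) * (x / L ^ (U + 2 * g + 4)) := by
      rw [← nsmul_eq_mul, ← sum_const]
      refine le_trans (Nat.cast_le.2 card_biUnion_le) ?_
      push_cast
      refine sum_le_sum fun j hj => ?_
      rw [hT0, mem_filter] at hj
      exact hTX (gr (L ^ g) j) hj.2.1 hj.2.2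
    refine h1.trans ?_
    calc (#T0 : ℝ) * (x / L ^ (U + 2 * g + 4)) ≤ (2 * (L ^ g) ^ 2 * L + 1) * (x / L ^ (U + 2 * g + 4)) :=
          mul_le_mul_of_nonneg_right h2 (by positivity)
      _ ≤ (L ^ (2 * g + 2)) * (x / L ^ (U + 2 * g + 4)) := by
          apply mul_le_mul_of_nonneg_right _ (by positivity)
          have h3 : L ^ (2 * g + 2) = (L ^ g) ^ 2 * L * L := by ring
          rw [h3]
          have h4 : 1 ≤ (L ^ g) ^ 2 * L := by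
            have : 1 ≤ (L ^ g) ^ 2 := one_le_pow₀ (one_le_pow₀ hL1)
            nlinarith
          nlinarith
      _ = x / L ^ (U + 2) := by
          have e : L ^ (U + 2 * g + 4) = L ^ (2 * g + 2) * L ^ (U + 2) := by ring
          rw [e]
          have h5 := (hLp0 (2 * g + 2)).ne'
          have h6 := (hLp0 (U + 2)).ne'
          field_simp
  · intro t ht htB j hj1 hj2
    by_contra hcon
    push Not at hcon
    apply htB
    rw [mem_biUnion]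
    refine ⟨j, ?_, ?_⟩
    · rw [hT0, mem_filter, mem_range]
      refine ⟨?_, hj1, hj2⟩
      show j < J + 1
      rw [Nat.lt_succ_iff, hJ]
      apply Nat.le_floor
      have h1 : Real.exp ((j : ℝ) / (L ^ g) ^ 2) < gr (L ^ g) j + 1 := Nat.lt_floor_add_one _
      have h2 : Real.exp ((j : ℝ) / (L ^ g) ^ 2) ≤ (x : ℝ) ^ 2 := by linarith
      rw [← Real.le_log_iff_exp_le (by positivity), Real.log_pow, ← hLX] at h2
      push_cast at h2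
      rw [div_le_iff₀ (by positivity)] at h2
      linarith
    · rw [mem_filter]
      refine ⟨ht, ?_⟩
      show ((gr (L ^ g) j : ℕ) : ℝ) / (R * L ^ U1) < _
      rw [mul_one_div] at hcon
      exact hcon

/-- **All windows for all but few shifts, arbitrary weights, an arbitrary function with small
exponential sums.** -/
theorem core_w (k : ℕ) (hk : 1 ≤ k) (F : ℤ[X]) (hF : F.natDegree = k + 1) (U C : ℕ) :
    ∃ Bf A X0 : ℕ, ∀ x : ℕ, X0 ≤ x → ∀ f : ℤ → ℝ, (∀ y, |f y| ≤ 3 * Real.log x) →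
    (∀ Y : ℕ, rt k x ^ k ≤ Y → (Y : ℝ) ≤ x * Real.log x ^ (2 * C + 1) →
      (∀ α : ℝ, ‖EE Y f α‖ ≤ Y / Real.log Y ^ A) ∧ ∑ u ∈ Icc (1 : ℤ) Y, f u ^ 2 ≤ 9 * Y * Real.log Y ^ 2) →
    ∀ w : ℤ → ℝ, (∀ m, |w m| ≤ 1) → ∃ Bad : Finset ℤ, Bad ⊆ Icc (-(x : ℤ)) x ∧
    (#Bad : ℝ) ≤ x / Real.log x ^ U ∧ ∀ t ∈ Icc (-(x : ℤ)) x, t ∉ Bad →
    ∀ a₁ b₁ : ℤ, Real.log x ^ Bf ≤ (b₁ : ℝ) - a₁ →
      (∀ m ∈ Ioc a₁ b₁, 2 ≤ F.eval m + t ∧
        ((F.eval m + t : ℤ) : ℝ) ≤ ((b₁ : ℝ) - a₁) * (rt k x ^ k * Real.log x ^ C)) →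
      |∑ m ∈ Ioc a₁ b₁, w m * f (F.eval m + t)| ≤ ((b₁ : ℝ) - a₁) / Real.log x ^ U := by
  classical
  have hF' : (F.comp (-X)).natDegree = k + 1 := by
    rw [natDegree_comp, natDegree_neg, natDegree_X, mul_one, hF]
  obtain ⟨nP, A, hnP, hA, hgr1, hgr2, σ₁, σ₂, hσ₁, hσ₂, hgap⟩ := growthZ k hk F hF
  obtain ⟨e, he⟩ : ∃ e, e = U + 1 := ⟨_, rfl⟩
  obtain ⟨c1, hc1⟩ : ∃ c1, c1 = C + U + e + 4 := ⟨_, rfl⟩
  obtain ⟨g, hg⟩ : ∃ g, g = C + c1 * k + e + 2 := ⟨_, rfl⟩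
  obtain ⟨B1, A1, X1, hX1⟩ := TW_most k hk F hF (C + e + 1) (U + 2 * g + 4) c1 (2 * C + 2) (2 * C + 1)
  obtain ⟨B2, A2, X2, hX2⟩ := TW_most k hk (F.comp (-X)) hF' (C + e + 1) (U + 2 * g + 4) c1 (2 * C + 2) (2 * C + 1)
  obtain ⟨B, hB⟩ : ∃ B, B = max B1 B2 := ⟨_, rfl⟩
  obtain ⟨AA, hAA⟩ : ∃ AA, AA = max A1 A2 := ⟨_, rfl⟩
  have hev : ∀ᶠ x : ℕ in atTop, (10000 + (4 : ℝ) ^ (k + 2) + A * 2 ^ (k + 4) + 4 * nP) ≤ Real.log x ∧
      Real.log x ^ (c1 + 2 * C + 4 + U + 4) ≤ (x : ℝ) ^ ((1 : ℝ) / (k + 1)) := by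
    filter_upwards [evt_log_ge (10000 + (4 : ℝ) ^ (k + 2) + A * 2 ^ (k + 4) + 4 * nP),
      evt_log_pow (c1 + 2 * C + 4 + U + 4) ((1 : ℝ) / (k + 1)) (by positivity)] with x h1 h2
    exact ⟨h1, h2⟩
  obtain ⟨X5, hX5⟩ := eventually_atTop.1 hev
  refine ⟨B + c1 * k + e + 2, AA, max (max X1 X2) (max X5 1), fun x hx f hff hfY w hw => ?_⟩
  have g1 : X1 ≤ x := le_trans (le_trans (le_max_left _ _) (le_max_left _ _)) hx
  have g2 : X2 ≤ x := le_trans (le_trans (le_max_right _ _) (le_max_left _ _)) hx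
  have g5 : X5 ≤ x := le_trans (le_trans (le_max_left _ _) (le_max_right _ _)) hx
  have g6 : 1 ≤ x := le_trans (le_trans (le_max_right _ _) (le_max_right _ _)) hx
  obtain ⟨hL, hLS⟩ := hX5 x g5
  have hSr : rt k x = (x : ℝ) ^ ((1 : ℝ) / (k + 1)) := rfl
  rw [← hSr] at hLS
  have hSx := rt_pow k x
  have hTX1 := hX1 x g1
  have hTX2 := hX2 x g2
  clear hX1 hX2 hX5 hev hx g1 g2 g5 hSr
  obtain ⟨L, hLd⟩ : ∃ L, L = Real.log x := ⟨_, rfl⟩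
  rw [← hLd] at hL hLS hTX1 hTX2 hff hfY ⊢
  obtain ⟨S, hS⟩ : ∃ S, S = rt k x := ⟨_, rfl⟩
  rw [← hS] at hLS hTX1 hTX2 hSx hfY ⊢
  obtain ⟨N0, hN0⟩ : ∃ N0, N0 = ⌈S / L ^ c1⌉₊ := ⟨_, rfl⟩
  obtain ⟨M, hM⟩ : ∃ M, M = ⌊S * L ^ (2 * C + 2)⌋₊ := ⟨_, rfl⟩
  rw [← hN0, ← hM] at hTX1 hTX2
  have q1 : (0 : ℝ) < 4 ^ (k + 2) := by positivity
  have q2 : (0 : ℝ) ≤ A * 2 ^ (k + 4) := by positivity
  have q3 : (0 : ℝ) ≤ nP := Nat.cast_nonneg _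
  have hL4 : 10000 ≤ L := by linarith
  have hL0 : 0 < L := by linarith
  have hL1 : 1 ≤ L := by linarith
  have hLp0 : ∀ n : ℕ, 0 < L ^ n := fun n => by positivity
  have hLp : ∀ n : ℕ, 1 ≤ L ^ n := fun n => one_le_pow₀ hL1
  have hLL : ∀ {i j : ℕ}, i ≤ j → L ^ i ≤ L ^ j := fun h => pow_le_pow_right₀ hL1 h
  have hxr : (1 : ℝ) ≤ x := by exact_mod_cast g6
  have hx0 : (0 : ℝ) < x := by linarith
  have hLS' : ∀ i : ℕ, i ≤ c1 + 2 * C + 4 + U + 4 → L ^ i ≤ S := fun i hi => (hLL hi).trans hLS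
  have hS1 : 1 ≤ S := (hLp 0).trans (hLS' 0 (by omega))
  have hS0 : 0 < S := by linarith
  have hSk0 : 0 < S ^ k := by positivity
  have hSk1 : S ≤ S ^ k := le_self_pow₀ hS1 (by omega)
  have hSx' : S ≤ x := by rw [← hSx]; exact le_self_pow₀ hS1 (by omega)
  have hX2' : x * L ^ (2 * C + 1) + 1 ≤ (x : ℝ) ^ 2 := by
    have h1 : L ^ (2 * C + 1) * 2 ≤ S := by
      calc L ^ (2 * C + 1) * 2 ≤ L ^ (2 * C + 1) * L := by
            apply mul_le_mul_of_nonneg_left _ (hLp0 _).le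
            linarith
        _ = L ^ (2 * C + 2) := by ring
        _ ≤ S := hLS' _ (by omega)
    calc x * L ^ (2 * C + 1) + 1 ≤ x * L ^ (2 * C + 1) + x * L ^ (2 * C + 1) := by
          have := one_le_mul_of_one_le_of_one_le hxr (hLp (2 * C + 1))
          linarith
      _ = x * (L ^ (2 * C + 1) * 2) := by ring
      _ ≤ x * x := by
          apply mul_le_mul_of_nonneg_left _ hx0.le
          linarith
      _ = (x : ℝ) ^ 2 := by ring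
  have hBB1 : ∀ Y : ℝ, S ^ k * L ^ B ≤ Y → S ^ k * L ^ B1 ≤ Y := fun Y h =>
    le_trans (mul_le_mul_of_nonneg_left (hLL (by omega)) hSk0.le) h
  have hBB2 : ∀ Y : ℝ, S ^ k * L ^ B ≤ Y → S ^ k * L ^ B2 ≤ Y := fun Y h =>
    le_trans (mul_le_mul_of_nonneg_left (hLL (by omega)) hSk0.le) h
  -- the bounds for `f` with the smaller exponents
  have hlogY : ∀ Y : ℝ, S ^ k ≤ Y → 1 ≤ Real.log Y := by
    intro Y hY
    have h1 : L ≤ Y := by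
      have h2 : L ^ 1 ≤ S := hLS' 1 (by omega)
      rw [pow_one] at h2
      linarith
    rw [Real.le_log_iff_exp_le (by linarith)]
    have := Real.exp_one_lt_d9
    linarith
  have hfA : ∀ Y : ℕ, S ^ k * L ^ B ≤ Y → (Y : ℝ) ≤ x * L ^ (2 * C + 1) → ∀ A' : ℕ, A' ≤ AA →
      (∀ α : ℝ, ‖EE Y f α‖ ≤ Y / Real.log Y ^ A') := by
    intro Y hY1 hY2 A' hA' α
    have hY3 : S ^ k ≤ Y := le_trans (le_mul_of_one_le_right hSk0.le (hLp B)) hY1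
    refine ((hfY Y hY3 hY2).1 α).trans ?_
    have h1 := hlogY Y hY3
    apply div_le_div_of_nonneg_left (Nat.cast_nonneg _) (by positivity)
    exact pow_le_pow_right₀ h1 hA'
  obtain ⟨Bt1, hBs1, hBc1, hBg1⟩ := bad_grid_w x g U (2 * C + 1) B (C + e + 1) N0 M (fun n : ℕ => w (n : ℤ))
    (fun n => F.eval (n : ℤ)) f L (S ^ k)
    hL4 hSk0 (fun Y hY1 hY2 => hTX1 Y (hBB1 Y hY1) hY2 f (hfA Y hY1 hY2 A1 (by omega))
      (hfY Y (le_trans (le_mul_of_one_le_right hSk0.le (hLp B)) hY1) hY2).2 _ (fun n => hw _)) hX2' hx0 hLd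
  obtain ⟨Bt2, hBs2, hBc2, hBg2⟩ := bad_grid_w x g U (2 * C + 1) B (C + e + 1) N0 M (fun n : ℕ => w (-(n : ℤ)))
    (fun n => (F.comp (-X)).eval (n : ℤ)) f L (S ^ k)
    hL4 hSk0 (fun Y hY1 hY2 => hTX2 Y (hBB2 Y hY1) hY2 f (hfA Y hY1 hY2 A2 (by omega))
      (hfY Y (le_trans (le_mul_of_one_le_right hSk0.le (hLp B)) hY1) hY2).2 _ (fun n => hw _)) hX2' hx0 hLd
  obtain ⟨Bs, hBs⟩ : ∃ Bs, Bs = (Icc (-(x : ℤ)) x).filter (fun t : ℤ => |(t : ℝ)| ≤ x / L ^ (U + 2)) := ⟨_, rfl⟩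
  have hxL : 1 ≤ (x : ℝ) / L ^ (U + 2) := by
    rw [one_le_div (hLp0 _)]
    exact (hLS' _ (by omega)).trans hSx'
  have hBsc : (#Bs : ℝ) ≤ 3 * (x / L ^ (U + 2)) := by
    rw [hBs]
    exact small_shifts x _ hxL
  refine ⟨Bt1 ∪ Bt2 ∪ Bs, ?_, ?_, ?_⟩
  · refine union_subset (union_subset hBs1 hBs2) ?_
    rw [hBs]; exact filter_subset _ _
  · have h1 : (#(Bt1 ∪ Bt2 ∪ Bs) : ℝ) ≤ #Bt1 + #Bt2 + #Bs := by
      have h2 := card_union_le (Bt1 ∪ Bt2) Bs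
      have h3 := card_union_le Bt1 Bt2
      exact_mod_cast (by omega : #(Bt1 ∪ Bt2 ∪ Bs) ≤ #Bt1 + #Bt2 + #Bs)
    refine h1.trans ?_
    have h2 : 5 * (x / L ^ (U + 2)) ≤ x / L ^ U := by
      have e1 : (x : ℝ) / L ^ U = L ^ 2 * (x / L ^ (U + 2)) := by
        rw [pow_add]
        have := (hLp0 U).ne'
        field_simp
      rw [e1]
      apply mul_le_mul_of_nonneg_right _ (by positivity)
      nlinarith
    linarith
  · intro t ht htB a₁ b₁ hH1 hv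
    rw [mem_union, mem_union, not_or, not_or] at htB
    obtain ⟨⟨hb1, hb2⟩, hb3⟩ := htB
    have hN0P : nP ≤ N0 := by
      have h1 : S / L ^ c1 ≤ N0 := by rw [hN0]; exact Nat.le_ceil _
      have h2 : L ≤ S / L ^ c1 := by
        rw [le_div_iff₀ (hLp0 _), ← pow_succ']
        exact hLS' _ (by omega)
      have : (nP : ℝ) ≤ N0 := by linarith
      exact_mod_cast this
    obtain ⟨hG1, hG2⟩ := hgap N0 hN0P
    have hfin := window_tw k C U B c1 e nP A F σ₁ σ₂ N0 M x t S L f w hw hk hc1 hgr1 hgr2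
      hσ₁ hσ₂ hG1 hG2 hN0 hM hSx (by linarith) (hLS' _ (by omega)) hff
      (by rw [← hg]; exact hBg1 t ht hb1) (by rw [← hg]; exact hBg2 t ht hb2)
      (abs_le.2 (mem_Icc.1 ht))
      (by
        by_contra hcon
        push Not at hcon
        exact hb3 (by rw [hBs, mem_filter]; exact ⟨ht, hcon⟩))
      a₁ b₁ hH1 hv
    refine hfin.trans ?_
    have hH0 : 0 ≤ (b₁ : ℝ) - a₁ := (hLp0 _).le.trans hH1
    rw [he, pow_succ]
    have h3 : 3 * (((b₁ : ℝ) - a₁) / (L ^ U * L)) = (3 / L) * (((b₁ : ℝ) - a₁) / L ^ U) := by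
      have := (hLp0 U).ne'
      field_simp
    rw [h3]
    have h4 : 3 / L ≤ 1 := by rw [div_le_one hL0]; linarith
    calc (3 / L) * (((b₁ : ℝ) - a₁) / L ^ U) ≤ 1 * (((b₁ : ℝ) - a₁) / L ^ U) :=
          mul_le_mul_of_nonneg_right h4 (div_nonneg hH0 (hLp0 _).le)
      _ = _ := one_mul _

end Pool.Agent.Q156.AW
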