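import Pool.Agent.Q156.AW.A6

/-!
The primes minus their sieve model.
-/

set_option autoImplicit false

namespace Pool.Agent.Q156.AW

open Finset Filter Topology Polynomial
open Pool.Agent.H373R2.T7 (pz Vz lamz mem_pz)
open Pool.Agent.TH892.SW (ff ffn sup_ff sq_ff wt)
open Pool.Agent.TH204.WR

/-- sizes of `log Y` -/
lemma log_sizes (k x : ℕ) (C : ℕ) (Y S L : ℝ) (hk : 1 ≤ k) (hLd : Real.log x = L) (hSp : S ^ (k + 1) = x)
    (hL1 : 1 ≤ L) (hLS : L ^ (C + 1) ≤ S) (hY1 : S ^ k ≤ Y) (hY2 : Y ≤ x * L ^ C) :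
    L / 2 ≤ Real.log Y ∧ Real.log Y ≤ 2 * L ∧ L ≤ Y := by
  have hLp : ∀ n : ℕ, 1 ≤ L ^ n := fun n => one_le_pow₀ hL1
  have hLC : L ^ C ≤ S := (pow_le_pow_right₀ hL1 (Nat.le_succ C)).trans hLS
  have hLS1 : L ≤ S := (le_self_pow₀ hL1 (Nat.succ_ne_zero C)).trans hLS
  have hS1 : 1 ≤ S := hL1.trans hLS1
  have hS0 : 0 < S := by linarith
  have hSx : S ≤ x := by rw [← hSp]; exact le_self_pow₀ hS1 (by omega)
  have hx0 : (0 : ℝ) < x := by linarith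
  have hSk1 : S ≤ S ^ k := le_self_pow₀ hS1 (by omega)
  have hSk0 : 0 < S ^ k := by positivity
  have hY0 : 0 < Y := by linarith
  refine ⟨?_, ?_, by linarith⟩
  · have h1 := Real.log_le_log hSk0 hY1
    rw [Real.log_pow] at h1
    have h2 : L = (k + 1) * Real.log S := by
      rw [← hLd, ← hSp, Real.log_pow]
      push_cast; ring
    have h3 : 0 ≤ Real.log S := Real.log_nonneg hS1
    have h4 : (1 : ℝ) ≤ k := by exact_mod_cast hk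
    have h5 := mul_nonneg (sub_nonneg.2 h4) h3
    rw [h2]
    linarith
  · have h1 : Y ≤ (x : ℝ) ^ 2 := by
      calc Y ≤ x * L ^ C := hY2
        _ ≤ x * x := by
            apply mul_le_mul_of_nonneg_left _ hx0.le
            exact hLC.trans hSx
        _ = (x : ℝ) ^ 2 := by ring
    have h2 := Real.log_le_log hY0 h1
    rw [Real.log_pow, hLd] at h2
    exact_mod_cast h2

/-- the hypotheses of `core_w` for primes -/
lemma ff_hyp (k : ℕ) (hk : 1 ≤ k) (A C : ℕ) : ∃ E0 : ℕ, ∀ E : ℕ, E0 ≤ E → ∃ X0 : ℕ, ∀ x : ℕ, X0 ≤ x →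
    (∀ y, |ff ⌊Real.log x ^ E⌋₊ y| ≤ 3 * Real.log x) ∧
    ∀ Y : ℕ, rt k x ^ k ≤ Y → (Y : ℝ) ≤ x * Real.log x ^ C →
      (∀ α : ℝ, ‖EE Y (ff ⌊Real.log x ^ E⌋₊) α‖ ≤ Y / Real.log Y ^ A) ∧
      ∑ u ∈ Icc (1 : ℤ) Y, ff ⌊Real.log x ^ E⌋₊ u ^ 2 ≤ 9 * Y * Real.log Y ^ 2 := by
  obtain ⟨B0, hB0⟩ := sup_ff A
  refine ⟨B0 + 2, fun E hE => ?_⟩
  obtain ⟨N1, hN1⟩ := hB0 (E + 1)
  obtain ⟨N2, hN2⟩ := sq_ff (E + 1)
  have hev : ∀ᶠ x : ℕ in atTop, (2 : ℝ) ^ (E + B0 + 20) + N1 + N2 ≤ Real.log x ∧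
      Real.log x ^ (C + 1) ≤ (x : ℝ) ^ ((1 : ℝ) / (k + 1)) := by
    filter_upwards [evt_log_ge ((2 : ℝ) ^ (E + B0 + 20) + N1 + N2),
      evt_log_pow (C + 1) ((1 : ℝ) / (k + 1)) (by positivity)] with x h1 h2
    exact ⟨h1, h2⟩
  obtain ⟨X0, hX0⟩ := eventually_atTop.1 hev
  refine ⟨max X0 (max N2 1), fun x hx => ?_⟩
  obtain ⟨hL, hLS⟩ := hX0 x ((le_max_left _ _).trans hx)
  have hxN2 : N2 ≤ x := (le_max_left _ _).trans ((le_max_right _ _).trans hx)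
  have hx1 : 1 ≤ x := (le_max_right _ _).trans ((le_max_right _ _).trans hx)
  have hSr : rt k x = (x : ℝ) ^ ((1 : ℝ) / (k + 1)) := rfl
  rw [← hSr] at hLS
  have hSp := rt_pow k x
  obtain ⟨L, hLd⟩ : ∃ L, Real.log x = L := ⟨_, rfl⟩
  rw [hLd] at hL hLS ⊢
  obtain ⟨z, hz⟩ : ∃ z, z = ⌊L ^ E⌋₊ := ⟨_, rfl⟩
  rw [← hz]
  have hN1r : (0 : ℝ) ≤ N1 := Nat.cast_nonneg _
  have hN2r : (0 : ℝ) ≤ N2 := Nat.cast_nonneg _
  have hp20 : ∀ a b : ℕ, a + b ≤ E + B0 + 20 → (2 : ℝ) ^ a * 2 ^ b ≤ L := by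
    intro a b hab
    rw [← pow_add]
    have := pow_le_pow_right₀ (show (1 : ℝ) ≤ 2 by norm_num) hab
    linarith
  have hL1024 : 1024 ≤ L := by
    have := hp20 10 0 (by omega)
    norm_num at this
    exact this
  have hL0 : 0 < L := by linarith
  have hL1 : 1 ≤ L := by linarith
  have hLp0 : ∀ n : ℕ, 0 < L ^ n := fun n => by positivity
  have hLL : ∀ {i j : ℕ}, i ≤ j → L ^ i ≤ L ^ j := fun h => pow_le_pow_right₀ hL1 h
  have hzle : (z : ℝ) ≤ L ^ E := by rw [hz]; exact Nat.floor_le (by positivity)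
  have hLE2 : 2 ≤ L ^ E := by
    have : L ≤ L ^ E := le_self_pow₀ hL1 (by omega)
    linarith
  have hzge : L ^ E / 2 ≤ z := by
    have := Nat.lt_floor_add_one (L ^ E)
    rw [← hz] at this
    linarith
  have hz1 : 1 ≤ z := by
    have : (1 : ℝ) ≤ z := by linarith
    exact_mod_cast this
  constructor
  · have h1 := (hN2 x hxN2 z hz1 (by
      rw [hLd]
      exact hzle.trans (hLL (Nat.le_succ E)))).1
    rw [hLd] at h1
    exact h1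
  · intro Y hY1 hY2
    obtain ⟨hℓ1, hℓ2, hLY⟩ := log_sizes k x C Y (rt k x) L hk hLd hSp hL1 hLS hY1 hY2
    obtain ⟨ℓ, hℓ⟩ : ∃ ℓ, ℓ = Real.log Y := ⟨_, rfl⟩
    rw [← hℓ] at hℓ1 hℓ2 ⊢
    have hℓ0 : 0 < ℓ := by linarith
    have hYN1 : N1 ≤ Y := by
      have : (N1 : ℝ) ≤ Y := by
        have := hLp0 0
        have h3 : (0 : ℝ) < 2 ^ (E + B0 + 20) := by positivity
        linarith
      exact_mod_cast this
    have hYN2 : N2 ≤ Y := by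
      have : (N2 : ℝ) ≤ Y := by
        have h3 : (0 : ℝ) < 2 ^ (E + B0 + 20) := by positivity
        linarith
      exact_mod_cast this
    have hzB : ℓ ^ B0 ≤ z := by
      calc ℓ ^ B0 ≤ (2 * L) ^ B0 := pow_le_pow_left₀ hℓ0.le hℓ2 _
        _ = 2 ^ B0 * L ^ B0 := mul_pow _ _ _
        _ ≤ (L / 2) * L ^ B0 := by
            apply mul_le_mul_of_nonneg_right _ (hLp0 _).le
            have := hp20 B0 1 (by omega)
            linarith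
        _ ≤ (L * L / 2) * L ^ B0 := by
            apply mul_le_mul_of_nonneg_right _ (hLp0 _).le
            have := mul_le_mul_of_nonneg_left hL1 hL0.le
            linarith
        _ = L ^ (B0 + 2) / 2 := by ring
        _ ≤ L ^ E / 2 := by
            have := hLL hE
            linarith
        _ ≤ z := hzge
    have hzE : (z : ℝ) ≤ ℓ ^ (E + 1) := by
      calc (z : ℝ) ≤ L ^ E := hzle
        _ ≤ (2 * ℓ) ^ E := pow_le_pow_left₀ hL0.le (by linarith) _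
        _ = 2 ^ E * ℓ ^ E := mul_pow _ _ _
        _ ≤ ℓ * ℓ ^ E := by
            apply mul_le_mul_of_nonneg_right _ (by positivity)
            have := hp20 E 1 (by omega)
            linarith
        _ = ℓ ^ (E + 1) := by ring
    have hsup := hN1 Y hYN1 z (by rw [← hℓ]; exact hzB) (by rw [← hℓ]; exact hzE)
    obtain ⟨-, hsq⟩ := hN2 Y hYN2 z hz1 (by rw [← hℓ]; exact hzE)
    rw [← hℓ] at hsup hsq
    exact ⟨hsup, hsq⟩

open Classical in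
/-- **Primes in the values of a polynomial, arbitrary weights.** -/
theorem primes_w (k : ℕ) (hk : 1 ≤ k) (F : ℤ[X]) (hF : F.natDegree = k + 1) (U C : ℕ) :
    ∃ B E0 : ℕ, ∀ E : ℕ, E0 ≤ E → ∃ X0 : ℕ, ∀ x : ℕ, X0 ≤ x →
    ∀ w : ℤ → ℝ, (∀ m, |w m| ≤ 1) → ∃ Bad : Finset ℤ, Bad ⊆ Icc (-(x : ℤ)) x ∧
    (#Bad : ℝ) ≤ x / Real.log x ^ U ∧ ∀ t ∈ Icc (-(x : ℤ)) x, t ∉ Bad →
    ∀ a₁ b₁ : ℤ, Real.log x ^ B ≤ (b₁ : ℝ) - a₁ →
      (∀ m ∈ Ioc a₁ b₁, 2 ≤ F.eval m + t ∧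
        ((F.eval m + t : ℤ) : ℝ) ≤ ((b₁ : ℝ) - a₁) * (rt k x ^ k * Real.log x ^ C)) →
      |∑ m ∈ (Ioc a₁ b₁).filter (fun m => (F.eval m + t).toNat.Prime), w m -
        (Vz ⌊Real.log x ^ E⌋₊)⁻¹ * ∑ m ∈ (Ioc a₁ b₁).filter (fun m => ∀ p : ℕ, p.Prime →
          p ≤ ⌊Real.log x ^ E⌋₊ → ¬ (p : ℤ) ∣ F.eval m + t), w m / Real.log ((F.eval m + t : ℤ) : ℝ)| ≤
        ((b₁ : ℝ) - a₁) / Real.log x ^ U := by
  obtain ⟨Bf, A, X1, h1⟩ := core_w k hk F hF U C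
  obtain ⟨E0, hE0⟩ := ff_hyp k hk A (2 * C + 1)
  refine ⟨Bf, E0, fun E hE => ?_⟩
  obtain ⟨X2, h2⟩ := hE0 E hE
  refine ⟨max X1 X2, fun x hx w hw => ?_⟩
  obtain ⟨h3, h4⟩ := h2 x ((le_max_right _ _).trans hx)
  obtain ⟨Bad, hB1, hB2, hB3⟩ := h1 x ((le_max_left _ _).trans hx) (ff ⌊Real.log x ^ E⌋₊) h3 h4 w hw
  refine ⟨Bad, hB1, hB2, fun t ht htB a₁ b₁ hab hv => ?_⟩
  have h5 := hB3 t ht htB a₁ b₁ hab hv
  obtain ⟨z, hz⟩ : ∃ z, z = ⌊Real.log x ^ E⌋₊ := ⟨_, rfl⟩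
  rw [← hz] at h5 ⊢
  refine le_trans (le_of_eq ?_) h5
  congr 1
  rw [mul_sum, sum_filter, sum_filter, ← sum_sub_distrib]
  refine sum_congr rfl fun m hm => ?_
  obtain ⟨h6, -⟩ := hv m hm
  unfold ff
  rw [if_pos h6]
  unfold ffn
  rw [mul_sub]
  have hcast : (((F.eval m + t).toNat : ℕ) : ℝ) = ((F.eval m + t : ℤ) : ℝ) := by
    have : (((F.eval m + t).toNat : ℕ) : ℤ) = F.eval m + t := Int.toNat_of_nonneg (by omega)
    have h7 : ((((F.eval m + t).toNat : ℕ) : ℤ) : ℝ) = ((F.eval m + t : ℤ) : ℝ) := by rw [this]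
    rwa [Int.cast_natCast] at h7
  congr 1
  · split_ifs <;> simp
  · unfold lamz wt
    rw [hcast]
    have hiff : (∀ p ∈ pz z, ¬ p ∣ (F.eval m + t).toNat) ↔
        ∀ p : ℕ, p.Prime → p ≤ z → ¬ (p : ℤ) ∣ F.eval m + t := by
      have hdv : ∀ p : ℕ, p ∣ (F.eval m + t).toNat ↔ (p : ℤ) ∣ F.eval m + t := by
        intro p
        rw [← Int.natCast_dvd_natCast, Int.toNat_of_nonneg (by omega)]
      constructor
      · intro h p hp hpz hd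
        exact h p (mem_pz.2 ⟨hpz, hp⟩) ((hdv p).2 hd)
      · intro h p hp hd
        rw [mem_pz] at hp
        exact h p hp.2 hp.1 ((hdv p).1 hd)
    by_cases hc : ∀ p : ℕ, p.Prime → p ≤ z → ¬ (p : ℤ) ∣ F.eval m + t
    · rw [if_pos hc, if_pos (hiff.2 hc)]
      ring
    · rw [if_neg hc, if_neg (fun h => hc (hiff.1 h))]
      ring

end Pool.Agent.Q156.AW
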