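import Pool.Agent.Q156.AW.A7

/-!
Both signs and families of weights.
-/

set_option autoImplicit false

namespace Pool.Agent.Q156.AW

open Finset Filter Topology Polynomial
open Pool.Agent.H373R2.T7 (pz Vz lamz mem_pz)
open Pool.Agent.TH204.WR

/-- combining exceptional sets: `κ` families, indices up to `(log x)^K` -/
lemma union_bad (x : ℕ) (U K : ℕ) (L : ℝ) (hL : 4 ≤ L) (P : ℕ → ℤ → Prop)
    (h : ∀ i : ℕ, ∃ Bad : Finset ℤ, Bad ⊆ Icc (-(x : ℤ)) x ∧ (#Bad : ℝ) ≤ x / L ^ (U + K + 1) ∧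
      ∀ t ∈ Icc (-(x : ℤ)) x, t ∉ Bad → P i t) :
    ∃ Bad : Finset ℤ, Bad ⊆ Icc (-(x : ℤ)) x ∧ (#Bad : ℝ) ≤ x / L ^ U / 2 ∧
      ∀ t ∈ Icc (-(x : ℤ)) x, t ∉ Bad → ∀ i : ℕ, (i : ℝ) ≤ L ^ K → P i t := by
  classical
  choose Bd h1 h2 h3 using h
  have hL0 : 0 < L := by linarith
  have hL1 : 1 ≤ L := by linarith
  have hLp0 : ∀ n : ℕ, 0 < L ^ n := fun n => by positivity
  have hLp : ∀ n : ℕ, 1 ≤ L ^ n := fun n => one_le_pow₀ hL1
  refine ⟨(range (⌊L ^ K⌋₊ + 1)).biUnion Bd, biUnion_subset.2 fun i _ => h1 i, ?_, ?_⟩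
  · have e1 : (#((range (⌊L ^ K⌋₊ + 1)).biUnion Bd) : ℝ) ≤ ∑ i ∈ range (⌊L ^ K⌋₊ + 1), (#(Bd i) : ℝ) := by
      exact_mod_cast card_biUnion_le
    have e2 : ∑ i ∈ range (⌊L ^ K⌋₊ + 1), (#(Bd i) : ℝ) ≤ ((⌊L ^ K⌋₊ : ℝ) + 1) * (x / L ^ (U + K + 1)) := by
      refine (sum_le_sum fun i _ => h2 i).trans (le_of_eq ?_)
      rw [sum_const, card_range, nsmul_eq_mul]
      push_cast
      ring
    have e3 : (⌊L ^ K⌋₊ : ℝ) ≤ L ^ K := Nat.floor_le (hLp0 K).le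
    have e4 : ((⌊L ^ K⌋₊ : ℝ) + 1) * (x / L ^ (U + K + 1)) ≤ (2 * L ^ K) * (x / L ^ (U + K + 1)) := by
      apply mul_le_mul_of_nonneg_right _ (by positivity)
      have := hLp K
      linarith
    have e5 : (2 * L ^ K) * (x / L ^ (U + K + 1)) = (4 / L) * (x / L ^ U / 2) := by
      rw [pow_add, pow_add, pow_one]
      have a1 := (hLp0 U).ne'
      have a2 := (hLp0 K).ne'
      field_simp
      ring
    have e6 : (4 / L) * (x / L ^ U / 2) ≤ 1 * (x / L ^ U / 2) := by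
      apply mul_le_mul_of_nonneg_right _ (by positivity)
      rw [div_le_one hL0]
      exact hL
    linarith
  · intro t ht htB i hi
    apply h3 i t ht
    intro hc
    apply htB
    rw [mem_biUnion]
    refine ⟨i, ?_, hc⟩
    rw [mem_range, Nat.lt_succ_iff]
    exact Nat.le_floor hi

/-- the sum of the weights `w m` over the `m` in `(a, b]` for which `|F(m) + k|` is a prime -/
noncomputable def primeSum (F : ℤ[X]) (k : ℤ) (w : ℤ → ℝ) (a b : ℤ) : ℝ :=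
  ∑ m ∈ (Ioc a b).filter (fun m => (F.eval m + k).natAbs.Prime), w m

open Classical in
/-- the sum of the weights `w m / log |F(m) + k|` over the `m` in `(a, b]` for which `F(m) + k` has no
prime factor `p ≤ z`, divided by the product of the `1 - 1/p`, `p ≤ z` -/
noncomputable def sieveSum (F : ℤ[X]) (k : ℤ) (z : ℕ) (w : ℤ → ℝ) (a b : ℤ) : ℝ :=
  (∏ p ∈ (Icc 1 z).filter Nat.Prime, (1 - 1 / (p : ℝ)))⁻¹ *
    ∑ m ∈ (Ioc a b).filter (fun m => ∀ p : ℕ, p.Prime → p ≤ z → ¬ (p : ℤ) ∣ F.eval m + k),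
      w m / Real.log |((F.eval m + k : ℤ) : ℝ)|

open Classical in
/-- one sign -/
lemma one_sign (k : ℕ) (hk : 1 ≤ k) (F : ℤ[X]) (hF : F.natDegree = k + 1) (U C : ℕ) :
    ∃ B E0 : ℕ, ∀ E : ℕ, E0 ≤ E → ∃ X0 : ℕ, ∀ x : ℕ, X0 ≤ x →
    ∀ w : ℤ → ℝ, (∀ m, |w m| ≤ 1) → ∃ Bad : Finset ℤ, Bad ⊆ Icc (-(x : ℤ)) x ∧
    (#Bad : ℝ) ≤ x / Real.log x ^ U ∧ ∀ t ∈ Icc (-(x : ℤ)) x, t ∉ Bad →
    ∀ a₁ b₁ : ℤ, Real.log x ^ B ≤ (b₁ : ℝ) - a₁ →
      (∀ m ∈ Ioc a₁ b₁, 2 ≤ F.eval m + t ∧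
        ((F.eval m + t : ℤ) : ℝ) ≤ ((b₁ : ℝ) - a₁) * (rt k x ^ k * Real.log x ^ C)) →
      |primeSum F t w a₁ b₁ - sieveSum F t ⌊Real.log x ^ E⌋₊ w a₁ b₁| ≤ ((b₁ : ℝ) - a₁) / Real.log x ^ U := by
  obtain ⟨B, E0, h⟩ := primes_w k hk F hF U C
  refine ⟨B, E0, fun E hE => ?_⟩
  obtain ⟨X0, h⟩ := h E hE
  refine ⟨X0, fun x hx w hw => ?_⟩
  obtain ⟨Bad, h1, h2, h3⟩ := h x hx w hw
  refine ⟨Bad, h1, h2, fun t ht htB a₁ b₁ hab hv => ?_⟩
  have h4 := h3 t ht htB a₁ b₁ hab hv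
  refine le_trans (le_of_eq ?_) h4
  unfold primeSum sieveSum Vz pz
  congr 2
  · apply sum_congr _ fun _ _ => rfl
    apply filter_congr
    intro m hm
    have h5 := (hv m hm).1
    have h6 : (F.eval m + t).natAbs = (F.eval m + t).toNat := by omega
    rw [h6]
  · congr 1
    apply sum_congr _ ?_
    · apply filter_congr
      intro m _
      exact Iff.rfl
    · intro m hm
      rw [mem_filter] at hm
      have h5 := (hv m hm.1).1
      have h6 : (0 : ℝ) ≤ ((F.eval m + t : ℤ) : ℝ) := by exact_mod_cast (by omega : (0 : ℤ) ≤ F.eval m + t)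
      rw [abs_of_nonneg h6]

/-- **Both signs, families of weights.** -/
theorem both_signs (k : ℕ) (hk : 1 ≤ k) (F : ℤ[X]) (hF : F.natDegree = k + 1) (U C K : ℕ) :
    ∃ B E0 : ℕ, ∀ E : ℕ, E0 ≤ E → ∃ X0 : ℕ, ∀ x : ℕ, X0 ≤ x →
    ∀ w : ℕ → ℤ → ℝ, (∀ i m, |w i m| ≤ 1) → ∃ Bad : Finset ℤ, Bad ⊆ Icc (-(x : ℤ)) x ∧
    (#Bad : ℝ) ≤ x / Real.log x ^ U ∧ ∀ t ∈ Icc (-(x : ℤ)) x, t ∉ Bad →
    ∀ i : ℕ, (i : ℝ) ≤ Real.log x ^ K → ∀ s : ℤ, (s = 1 ∨ s = -1) →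
    ∀ a₁ b₁ : ℤ, Real.log x ^ B ≤ (b₁ : ℝ) - a₁ →
      (∀ m ∈ Ioc a₁ b₁, 2 ≤ s * (F.eval m + t) ∧
        ((s * (F.eval m + t) : ℤ) : ℝ) ≤ ((b₁ : ℝ) - a₁) * (rt k x ^ k * Real.log x ^ C)) →
      |primeSum F t (w i) a₁ b₁ - sieveSum F t ⌊Real.log x ^ E⌋₊ (w i) a₁ b₁| ≤
        ((b₁ : ℝ) - a₁) / Real.log x ^ U := by
  classical
  have hF' : (-F).natDegree = k + 1 := by rw [natDegree_neg, hF]
  obtain ⟨B1, E1, h1⟩ := one_sign k hk F hF (U + K + 1) C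
  obtain ⟨B2, E2, h2⟩ := one_sign k hk (-F) hF' (U + K + 1) C
  refine ⟨max B1 B2, max E1 E2, fun E hE => ?_⟩
  obtain ⟨X1, h1⟩ := h1 E ((le_max_left _ _).trans hE)
  obtain ⟨X2, h2⟩ := h2 E ((le_max_right _ _).trans hE)
  obtain ⟨X3, h3⟩ := eventually_atTop.1 (evt_log_ge 4)
  refine ⟨max (max X1 X2) X3, fun x hx w hw => ?_⟩
  have g1 : X1 ≤ x := (le_max_left _ _).trans ((le_max_left _ _).trans hx)
  have g2 : X2 ≤ x := (le_max_right _ _).trans ((le_max_left _ _).trans hx)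
  have hL := h3 x ((le_max_right _ _).trans hx)
  obtain ⟨L, hLd⟩ : ∃ L, L = Real.log x := ⟨_, rfl⟩
  have h1 := h1 x g1
  have h2 := h2 x g2
  rw [← hLd] at hL h1 h2 ⊢
  have hL1 : 1 ≤ L := by linarith
  have hL0 : 0 < L := by linarith
  have hLp0 : ∀ n : ℕ, 0 < L ^ n := fun n => by positivity
  obtain ⟨Bd1, a1, a2, a3⟩ := union_bad x U K L hL _ (fun i => h1 (w i) (hw i))
  obtain ⟨Bd2, b1, b2, b3⟩ := union_bad x U K L hL _ (fun i => h2 (w i) (hw i))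
  have hneg : ∀ t : ℤ, t ∈ Icc (-(x : ℤ)) x → -t ∈ Icc (-(x : ℤ)) x := by
    intro t ht
    rw [mem_Icc] at ht ⊢
    omega
  refine ⟨Bd1 ∪ Bd2.image (fun t => -t), ?_, ?_, ?_⟩
  · refine union_subset a1 ?_
    intro t ht
    rw [mem_image] at ht
    obtain ⟨u, hu, rfl⟩ := ht
    exact hneg u (b1 hu)
  · have c1 : (#(Bd1 ∪ Bd2.image (fun t => -t)) : ℝ) ≤ #Bd1 + #Bd2 := by
      have c2 := card_union_le Bd1 (Bd2.image (fun t => -t))
      have c3 : #(Bd2.image (fun t : ℤ => -t)) ≤ #Bd2 := card_image_le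
      exact_mod_cast c2.trans (by omega)
    linarith
  · intro t ht htB i hi s hs a₁ b₁ hab hv
    rw [mem_union, not_or] at htB
    have hab0 : 0 ≤ (b₁ : ℝ) - a₁ := (hLp0 _).le.trans hab
    have hUU : ((b₁ : ℝ) - a₁) / L ^ (U + K + 1) ≤ ((b₁ : ℝ) - a₁) / L ^ U := by
      apply div_le_div_of_nonneg_left hab0 (hLp0 _)
      exact pow_le_pow_right₀ hL1 (by omega)
    rcases hs with rfl | rfl
    · refine le_trans ?_ hUU
      apply a3 t ht htB.1 i hi a₁ b₁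
      · exact (pow_le_pow_right₀ hL1 (le_max_left _ _)).trans hab
      · intro m hm
        have := hv m hm
        rw [one_mul] at this
        exact this
    · refine le_trans ?_ hUU
      have hev : ∀ m : ℤ, (-F).eval m + -t = -1 * (F.eval m + t) := by
        intro m
        rw [eval_neg]
        ring
      have c1 := b3 (-t) (hneg t ht) (by
        intro hc
        apply htB.2
        rw [mem_image]
        exact ⟨-t, hc, neg_neg t⟩) i hi a₁ b₁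
        ((pow_le_pow_right₀ hL1 (le_max_right _ _)).trans hab) (by
          intro m hm
          rw [hev]
          exact hv m hm)
      have c2 : primeSum (-F) (-t) (w i) a₁ b₁ = primeSum F t (w i) a₁ b₁ := by
        unfold primeSum
        apply sum_congr _ fun _ _ => rfl
        apply filter_congr
        intro m _
        rw [hev, neg_one_mul, Int.natAbs_neg]
      have c3 : sieveSum (-F) (-t) ⌊L ^ E⌋₊ (w i) a₁ b₁ = sieveSum F t ⌊L ^ E⌋₊ (w i) a₁ b₁ := by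
        unfold sieveSum
        congr 1
        apply sum_congr
        · apply filter_congr
          intro m _
          rw [hev]
          simp only [neg_one_mul, Int.dvd_neg]
        · intro m _
          rw [hev, neg_one_mul, Int.cast_neg, abs_neg]
      rw [c2, c3] at c1
      exact c1

end Pool.Agent.Q156.AW
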